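import Mathlib
import Pool.Agent.P.MP_7283bc_al.Data

/-! The symmetric bilinear map `B : V × V → V` over `F_2` and its properties. -/

namespace Pool.Agent.P.MP_7283bc_al

abbrev V : Type := Fin 8 → ZMod 2

/-- The vector with the given bit mask. -/
def toV (a : ℕ) : V := fun i => bif a.testBit i.val then 1 else 0

lemma toV_zero : toV 0 = 0 := by
  funext i; simp [toV]

lemma toV_xor (a b : ℕ) : toV (a ^^^ b) = toV a + toV b := by
  funext i
  simp only [toV, Nat.testBit_xor, Pi.add_apply]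
  cases a.testBit i <;> cases b.testBit i <;> decide

lemma toV_cond (c : Bool) (a : ℕ) :
    toV (bif c then a else 0) = (bif c then (1 : ZMod 2) else 0) • toV a := by
  cases c <;> simp [toV_zero]

lemma toV_comb (a : ℕ) (f : ℕ → ℕ) : toV (comb a f) = ∑ i : Fin 8, toV a i • toV (f i) := by
  simp only [comb, toV_xor, toV_cond, Fin.sum_univ_eight]
  rfl

lemma exists_toV (v : V) : ∃ a, a < 256 ∧ toV a = v := by
  refine ⟨Nat.ofBits fun i : Fin 8 => decide (v i = 1), Nat.ofBits_lt_two_pow _, ?_⟩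
  funext i
  simp only [toV, Nat.testBit_ofBits_lt _ _ i.isLt]
  generalize v i = x
  revert x
  decide

lemma toV_inj {a b : ℕ} (ha : a < 256) (hb : b < 256) (h : toV a = toV b) : a = b := by
  apply Nat.eq_of_testBit_eq
  intro i
  by_cases hi : i < 8
  · have := congrFun h ⟨i, hi⟩
    simp only [toV] at this
    revert this
    cases a.testBit i <;> cases b.testBit i <;> decide
  · have h1 : 2 ^ 8 ≤ 2 ^ i := Nat.pow_le_pow_right (by norm_num) (by omega)
    rw [Nat.testBit_lt_two_pow (by omega), Nat.testBit_lt_two_pow (by omega)]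

lemma toV_pow (k : Fin 8) : toV (2 ^ k.val) = Pi.single k 1 := by
  revert k
  decide +kernel

lemma byte_lt (x i : ℕ) : byte x i < 256 := Nat.mod_lt _ (by norm_num)

lemma xor_lt {a b : ℕ} (ha : a < 256) (hb : b < 256) : a ^^^ b < 256 :=
  Nat.xor_lt_two_pow (n := 8) ha hb

/-- The multiplication `R_1 × R_1 → R_2`. -/
def B : V →ₗ[ZMod 2] V →ₗ[ZMod 2] V :=
  LinearMap.mk₂ (ZMod 2) (fun v w => ∑ i : Fin 8, v i • ∑ j : Fin 8, w j • toV (T i j))
    (fun _ _ _ => by simp [add_smul, Finset.sum_add_distrib])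
    (fun _ _ _ => by simp [Finset.smul_sum, mul_smul])
    (fun _ _ _ => by simp [add_smul, Finset.sum_add_distrib])
    (fun c v _ => by
      simp only [Pi.smul_apply, smul_eq_mul, Finset.smul_sum, smul_smul]
      refine Finset.sum_congr rfl fun i _ => Finset.sum_congr rfl fun j _ => ?_
      congr 1
      ring)

lemma B_apply (v w : V) : B v w = ∑ i : Fin 8, v i • ∑ j : Fin 8, w j • toV (T i j) := rfl

lemma B_toV (a b : ℕ) : B (toV a) (toV b) = toV (Bn a b) := by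
  rw [B_apply, Bn, toV_comb]
  simp only [toV_comb]

lemma B_symm (v w : V) : B v w = B w v := by
  simp only [B_apply, Finset.smul_sum, smul_smul]
  rw [Finset.sum_comm]
  refine Finset.sum_congr rfl fun i _ => Finset.sum_congr rfl fun j _ => ?_
  rw [T_symm j i, mul_comm]

lemma B_uk (l : V) (hl : l ≠ 0) (k : Fin 8) : ∃ w w' x y z : V, B l l = 0 ∧ B w l = 0 ∧
    B w' l = 0 ∧ B x l + B y w + B z w' = Pi.single k 1 := by
  obtain ⟨a, ha, rfl⟩ := exists_toV l
  have h := List.all_eq_true.1 chkL_all a (List.mem_range.2 ha)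
  have ha0 : a ≠ 0 := by
    rintro rfl
    exact hl toV_zero
  generalize cert.getD a 0 = c at h
  simp only [chkL, Bool.or_eq_true, Bool.and_eq_true, Nat.beq_eq, ha0, false_or,
    List.all_eq_true, List.mem_range] at h
  obtain ⟨⟨⟨h1, h2⟩, h3⟩, h4⟩ := h
  have h5 := h4 k k.isLt
  simp only [chkK, Nat.beq_eq] at h5
  refine ⟨toV (byte c 0), toV (byte c 1), toV (byte c (2 + 3 * k)), toV (byte c (3 + 3 * k)),
    toV (byte c (4 + 3 * k)), ?_, ?_, ?_, ?_⟩
  · rw [B_toV, h1, toV_zero]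
  · rw [B_toV, h2, toV_zero]
  · rw [B_toV, h3, toV_zero]
  · rw [B_toV, B_toV, B_toV, ← toV_xor, ← toV_xor, h5, toV_pow]

lemma smul_two (c : ZMod 2) : ∃ e : ℕ, (e = 0 ∨ e = 2) ∧ c • toV 2 = toV e ∧ (e = 0 → c = 0) := by
  have : c = 0 ∨ c = 1 := by revert c; decide
  rcases this with rfl | rfl
  · exact ⟨0, Or.inl rfl, by simp [toV_zero], fun _ => rfl⟩
  · exact ⟨2, Or.inr rfl, by simp, by omega⟩

lemma add_eq_zero_V {x y : V} (h : x + y = 0) : x = y := by
  funext i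
  have := congrFun h i
  simp only [Pi.add_apply, Pi.zero_apply] at this
  revert this
  generalize x i = s
  generalize y i = t
  revert s t
  decide

lemma B_pair (x y : V) (c d : ZMod 2) (h1 : B (toV 1) x + B (toV 4) y + c • toV 2 = 0)
    (h2 : B (toV 4) x + B (toV 5) y + d • toV 2 = 0) :
    c = 0 ∧ d = 0 ∧ ∃ s t : ZMod 2, x = s • toV 1 + t • toV 4 ∧ y = s • toV 4 + t • toV 5 := by
  obtain ⟨a, ha, rfl⟩ := exists_toV x
  obtain ⟨b, hb, rfl⟩ := exists_toV y
  obtain ⟨e, he, ec, hc⟩ := smul_two c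
  obtain ⟨f, hf, fd, hd⟩ := smul_two d
  have ta := List.all_eq_true.1 tab_all a (List.mem_range.2 ha)
  have tb := List.all_eq_true.1 tab_all b (List.mem_range.2 hb)
  simp only [Bool.and_eq_true, Nat.beq_eq] at ta tb
  rw [B_toV, B_toV, ← toV_xor, ec, ← ta.1.1, ← tb.1.2] at h1
  rw [B_toV, B_toV, ← toV_xor, fd, ← ta.1.2, ← tb.2] at h2
  have e1 := toV_inj (xor_lt (byte_lt _ _) (byte_lt _ _)) (by omega) (add_eq_zero_V h1)
  have e2 := toV_inj (xor_lt (byte_lt _ _) (byte_lt _ _)) (by omega) (add_eq_zero_V h2)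
  have h := List.all_eq_true.1 (List.all_eq_true.1 chkP_all a (List.mem_range.2 ha)) b
    (List.mem_range.2 hb)
  simp only [chkP, e1, e2, Bool.or_eq_true, Bool.and_eq_true, Bool.not_eq_true', Nat.beq_eq,
    Bool.or_eq_false_iff] at h
  have hb0 : ∀ u v : ℕ, Nat.beq u v = false → u ≠ v := fun u v h => Nat.ne_of_beq_eq_false h
  have key : (e = 0 ∧ f = 0) ∧ (((a = 0 ∧ b = 0 ∨ a = 1 ∧ b = 4) ∨ a = 4 ∧ b = 5) ∨
      a = 5 ∧ b = 1) := by
    rcases h with (h | h) | h
    · have := hb0 _ _ h.1; have := hb0 _ _ h.2; omega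
    · have := hb0 _ _ h.1; have := hb0 _ _ h.2; omega
    · exact h
  refine ⟨hc key.1.1, hd key.1.2, ?_⟩
  rcases key.2 with ((⟨rfl, rfl⟩ | ⟨rfl, rfl⟩) | ⟨rfl, rfl⟩) | ⟨rfl, rfl⟩
  · exact ⟨0, 0, by simp [toV_zero], by simp [toV_zero]⟩
  · exact ⟨1, 0, by simp, by simp⟩
  · exact ⟨0, 1, by simp, by simp⟩
  · refine ⟨1, 1, ?_, ?_⟩
    · rw [one_smul, one_smul, ← toV_xor]; rfl
    · rw [one_smul, one_smul, ← toV_xor]; rfl

lemma chkS_spec {s y y0 y1 : ℕ} (h : chkS s y y0 y1 = true) : ∃ x x' : V, ∃ c d : ZMod 2,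
    B (toV 1) x + B (toV 4) x' + c • toV 2 = toV y0 ∧
    B (toV 4) x + B (toV 5) x' + d • toV 2 = toV y1 := by
  simp only [chkS, Bool.and_eq_true, Nat.beq_eq] at h
  refine ⟨toV (byte s (4 * y)), toV (byte s (4 * y + 1)),
    bif (byte s (4 * y + 2)).testBit 0 then 1 else 0,
    bif (byte s (4 * y + 3)).testBit 0 then 1 else 0, ?_, ?_⟩
  · rw [B_toV, B_toV, ← toV_cond, ← toV_xor, ← toV_xor, h.1]
  · rw [B_toV, B_toV, ← toV_cond, ← toV_xor, ← toV_xor, h.2]

lemma B_span (u v : V) : ∃ x x' : V, ∃ c d : ZMod 2,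
    B (toV 1) x + B (toV 4) x' + c • toV 2 = u ∧
    B (toV 4) x + B (toV 5) x' + d • toV 2 = v := by
  obtain ⟨a, ha, rfl⟩ := exists_toV u
  obtain ⟨b, hb, rfl⟩ := exists_toV v
  have h1 := List.all_eq_true.1 chkS_all a (List.mem_range.2 ha)
  have h2 := List.all_eq_true.1 chkS_all b (List.mem_range.2 hb)
  rw [Bool.and_eq_true] at h1 h2
  obtain ⟨x, x', c, d, e1, e2⟩ := chkS_spec h1.1
  obtain ⟨y, y', c', d', f1, f2⟩ := chkS_spec h2.2
  rw [toV_zero] at e2 f1
  refine ⟨x + y, x' + y', c + c', d + d', ?_, ?_⟩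
  · rw [← add_zero (toV a), ← e1, ← f1]
    simp only [map_add, add_smul]
    abel
  · rw [← zero_add (toV b), ← e2, ← f2]
    simp only [map_add, add_smul]
    abel

lemma B_self (l : V) : B l l = 0 := by
  by_cases h : l = 0
  · simp [h]
  · obtain ⟨_, _, _, _, _, h, -⟩ := B_uk l h 0
    exact h

lemma indep14 (s t : ZMod 2) (h : s • toV 1 + t • toV 4 = 0) : s = 0 ∧ t = 0 := by
  have h0 := congrFun h 0
  have h2 := congrFun h 2
  revert h0 h2
  revert s t
  decide +kernel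

end Pool.Agent.P.MP_7283bc_al
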