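import Mathlib

/-!
Definitions for MP_7283bc_al, following the problem file: `R = S / I` with
`S = K[x_1, ..., x_n]`, graded `R`-modules, minimal graded free resolutions, graded Betti
numbers, the linear part and the linearity defect.
-/

namespace Pool.Agent.P.MP_7283bc_al

open MvPolynomial

variable {K : Type} [Field K] {n : ℕ} (I : Ideal (MvPolynomial (Fin n) K))

/-- The degree `j` component `R_j` of `R = S / I`: the image of the forms of degree `j`
(zero for negative `j`). -/
noncomputable def piece (j : ℤ) : Submodule K (MvPolynomial (Fin n) K ⧸ I) :=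
  if 0 ≤ j then
    (homogeneousSubmodule (Fin n) K j.toNat).map (Ideal.Quotient.mkₐ K I).toLinearMap
  else ⊥

/-- The ideal `𝔪 = R_+`, generated by the images of the variables. -/
noncomputable def irrel : Ideal (MvPolynomial (Fin n) K ⧸ I) :=
  Ideal.span (Set.range fun i => Ideal.Quotient.mk I (X i))

section

variable (M : Type) [AddCommGroup M] [Module K M] [Module (MvPolynomial (Fin n) K ⧸ I) M]
  (𝓜 : ℤ → Submodule K M)

/-- `M = ⨁_j 𝓜 j` is a finitely generated graded `R`-module. -/
structure IsFGGraded : Prop where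
  tower : IsScalarTower K (MvPolynomial (Fin n) K ⧸ I) M
  finite : Module.Finite (MvPolynomial (Fin n) K ⧸ I) M
  internal : DirectSum.IsInternal 𝓜
  smul_mem : ∀ (i j : ℤ) (r : MvPolynomial (Fin n) K ⧸ I) (x : M),
    r ∈ piece I i → x ∈ 𝓜 j → r • x ∈ 𝓜 (i + j)

/-- A minimal graded free resolution `... → F_2 → F_1 → F_0 → M → 0`. The module `F_i` is free
on `b i` basis elements of degrees `deg i p`; `gen p` is the image in `M` of the `p`-th basis
element of `F_0`, and `D i` is the matrix of `F_{i+1} → F_i`. All maps are homogeneous of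
degree zero, the matrices have entries in `𝔪`, and the complex is exact. -/
structure MinRes where
  b : ℕ → ℕ
  deg : ∀ i, Fin (b i) → ℤ
  gen : Fin (b 0) → M
  D : ∀ i, Matrix (Fin (b i)) (Fin (b (i + 1))) (MvPolynomial (Fin n) K ⧸ I)
  gen_mem : ∀ p, gen p ∈ 𝓜 (deg 0 p)
  D_mem : ∀ i p q, D i p q ∈ piece I (deg (i + 1) q - deg i p)
  D_min : ∀ i p q, D i p q ∈ irrel I
  surj : Function.Surjective
    (fun x : Fin (b 0) → MvPolynomial (Fin n) K ⧸ I => ∑ p, x p • gen p)
  exact_zero : Function.Exact (D 0).mulVec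
    (fun x : Fin (b 0) → MvPolynomial (Fin n) K ⧸ I => ∑ p, x p • gen p)
  exact_succ : ∀ i, Function.Exact (D (i + 1)).mulVec (D i).mulVec

variable {I M 𝓜}

/-- The graded Betti number `β_{ij}`: the number of basis elements of `F_i` of degree `j`. -/
def MinRes.betti (F : MinRes I M 𝓜) (i : ℕ) (j : ℤ) : ℕ :=
  (Finset.univ.filter fun p => F.deg i p = j).card

/-- The differential `F_{i+1} → F_i` of the linear part `lin(F)`: entries of degree `1` are kept
and all other entries are replaced by `0`. -/
noncomputable def MinRes.lin (F : MinRes I M 𝓜) (i : ℕ) :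
    Matrix (Fin (F.b i)) (Fin (F.b (i + 1))) (MvPolynomial (Fin n) K ⧸ I) :=
  fun p q => if F.deg (i + 1) q - F.deg i p = 1 then F.D i p q else 0

/-- The linearity defect `sup {i : H_i(lin F) ≠ 0}` in `ℕ∞`. The condition below says
`H_{i+1}(lin F) ≠ 0`; the index `0` does not change the supremum. -/
noncomputable def MinRes.ld (F : MinRes I M 𝓜) : ℕ∞ :=
  ⨆ (i : ℕ) (_ : ∃ x, (F.lin i).mulVec x = 0 ∧ x ∉ Set.range (F.lin (i + 1)).mulVec),
    ((i + 1 : ℕ) : ℕ∞)

end

/-- `R` is universally Koszul: every ideal `J` generated by elements of `R_1`, graded by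
`J_j = J ∩ R_j`, has a linear resolution, `β_{ij}(J) = 0` for `j ≠ i + 1`. -/
def UniversallyKoszul : Prop :=
  ∀ T : Set (MvPolynomial (Fin n) K ⧸ I), T ⊆ piece I 1 →
    ∃ F : MinRes I (Ideal.span T)
      (fun j => (piece I j).comap ((Ideal.span T).subtype.restrictScalars K)),
      ∀ (i : ℕ) (j : ℤ), j ≠ i + 1 → F.betti i j = 0

/-- `R` is absolutely Koszul: every finitely generated graded `R`-module has finite linearity
defect, computed from its minimal graded free resolution. -/
def AbsolutelyKoszul : Prop :=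
  ∀ (M : Type) [AddCommGroup M] [Module K M] [Module (MvPolynomial (Fin n) K ⧸ I) M]
    (𝓜 : ℤ → Submodule K M), IsFGGraded I M 𝓜 → ∀ F : MinRes I M 𝓜, F.ld < ⊤

end Pool.Agent.P.MP_7283bc_al
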