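import Mathlib
import Pool.Agent.P.MP_7283bc_al.Bilin
import Pool.Agent.P.MP_7283bc_al.Defs

/-! The algebra `A = F_2 + V + V` and its presentation `S / I`. -/

namespace Pool.Agent.P.MP_7283bc_al

open MvPolynomial

/-- The underlying space of the algebra. -/
def A : Type := ZMod 2 × V × V

instance : AddCommGroup A := inferInstanceAs (AddCommGroup (ZMod 2 × V × V))
instance : Module (ZMod 2) A := inferInstanceAs (Module (ZMod 2) (ZMod 2 × V × V))

instance : Mul A := ⟨fun x y => (x.1 * y.1, x.1 • y.2.1 + y.1 • x.2.1,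
  x.1 • y.2.2 + y.1 • x.2.2 + B x.2.1 y.2.1)⟩
instance : One A := ⟨(1, 0, 0)⟩

lemma A.ext {x y : A} (h1 : x.1 = y.1) (h2 : x.2.1 = y.2.1) (h3 : x.2.2 = y.2.2) : x = y :=
  Prod.ext h1 (Prod.ext h2 h3)

lemma mul_1 (x y : A) : (x * y).1 = x.1 * y.1 := rfl
lemma mul_2 (x y : A) : (x * y).2.1 = x.1 • y.2.1 + y.1 • x.2.1 := rfl
lemma mul_3 (x y : A) : (x * y).2.2 = x.1 • y.2.2 + y.1 • x.2.2 + B x.2.1 y.2.1 := rfl
lemma add_1 (x y : A) : (x + y).1 = x.1 + y.1 := rfl
lemma add_2 (x y : A) : (x + y).2.1 = x.2.1 + y.2.1 := rfl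
lemma add_3 (x y : A) : (x + y).2.2 = x.2.2 + y.2.2 := rfl
lemma smul_1 (c : ZMod 2) (x : A) : (c • x).1 = c * x.1 := rfl
lemma smul_2 (c : ZMod 2) (x : A) : (c • x).2.1 = c • x.2.1 := rfl
lemma smul_3 (c : ZMod 2) (x : A) : (c • x).2.2 = c • x.2.2 := rfl
lemma zero_1 : (0 : A).1 = 0 := rfl
lemma zero_2 : (0 : A).2.1 = 0 := rfl
lemma zero_3 : (0 : A).2.2 = 0 := rfl
lemma one_1 : (1 : A).1 = 1 := rfl
lemma one_2 : (1 : A).2.1 = 0 := rfl
lemma one_3 : (1 : A).2.2 = 0 := rfl

instance : CommRing A :=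
  { (inferInstance : AddCommGroup A), (inferInstance : Mul A), (inferInstance : One A) with
    mul_comm := fun x y => by
      apply A.ext
      · simp only [mul_1, mul_comm]
      · simp only [mul_2, add_comm]
      · simp only [mul_3, B_symm x.2.1, add_comm (x.1 • y.2.2)]
    mul_assoc := fun x y z => by
      apply A.ext
      · simp only [mul_1, mul_assoc]
      · simp only [mul_1, mul_2]; module
      · simp only [mul_1, mul_2, mul_3, map_add, map_smul, LinearMap.add_apply,
          LinearMap.smul_apply]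
        module
    one_mul := fun x => by
      apply A.ext <;> simp [mul_1, mul_2, mul_3, one_1, one_2, one_3]
    mul_one := fun x => by
      apply A.ext <;> simp [mul_1, mul_2, mul_3, one_1, one_2, one_3]
    zero_mul := fun x => by
      apply A.ext <;> simp [mul_1, mul_2, mul_3, zero_1, zero_2, zero_3]
    mul_zero := fun x => by
      apply A.ext <;> simp [mul_1, mul_2, mul_3, zero_1, zero_2, zero_3]
    left_distrib := fun x y z => by
      apply A.ext
      · simp only [mul_1, add_1, mul_add]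
      · simp only [mul_2, add_1, add_2]; module
      · simp only [mul_3, add_1, add_2, add_3, map_add]; module
    right_distrib := fun x y z => by
      apply A.ext
      · simp only [mul_1, add_1, add_mul]
      · simp only [mul_2, add_1, add_2]; module
      · simp only [mul_3, add_1, add_2, add_3, map_add, LinearMap.add_apply]; module }

instance : Algebra (ZMod 2) A :=
  Algebra.ofModule
    (fun c x y => by
      apply A.ext
      · simp only [mul_1, smul_1, mul_assoc]
      · simp only [mul_2, smul_1, smul_2]; module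
      · simp only [mul_3, smul_1, smul_2, smul_3, map_smul, LinearMap.smul_apply]; module)
    (fun c x y => by
      apply A.ext
      · simp only [mul_1, smul_1]; ring
      · simp only [mul_2, smul_1, smul_2]; module
      · simp only [mul_3, smul_1, smul_2, smul_3, map_smul]; module)

/-- Inclusion of the degree one part. -/
def i1 : V →ₗ[ZMod 2] A where
  toFun v := (0, v, 0)
  map_add' _ _ := A.ext (by simp [add_1]) rfl (by simp [add_3])
  map_smul' _ _ := A.ext (by simp [smul_1]) rfl (by simp [smul_3])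

/-- Inclusion of the degree two part. -/
def i2 : V →ₗ[ZMod 2] A where
  toFun w := (0, 0, w)
  map_add' _ _ := A.ext (by simp [add_1]) (by simp [add_2]) rfl
  map_smul' _ _ := A.ext (by simp [smul_1]) (by simp [smul_2]) rfl

lemma i1_mul_i1 (v w : V) : i1 v * i1 w = i2 (B v w) :=
  A.ext (by simp [mul_1, i1, i2]) (by simp [mul_2, i1, i2]) (by simp [mul_3, i1, i2])

lemma i1_mul_i2 (v w : V) : i1 v * i2 w = 0 :=
  A.ext (by simp [mul_1, i1, i2, zero_1]) (by simp [mul_2, i1, i2, zero_2])
    (by simp [mul_3, i1, i2, zero_3])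

lemma i2_mul_i2 (v w : V) : i2 v * i2 w = 0 :=
  A.ext (by simp [mul_1, i2, zero_1]) (by simp [mul_2, i2, zero_2])
    (by simp [mul_3, i2, zero_3])

lemma A.dec (x : A) : x = x.1 • (1 : A) + i1 x.2.1 + i2 x.2.2 :=
  A.ext (by simp [add_1, smul_1, one_1, i1, i2]) (by simp [add_2, smul_2, one_2, i1, i2])
    (by simp [add_3, smul_3, one_3, i1, i2])

/-- The presentation map. -/
noncomputable def pres : MvPolynomial (Fin 8) (ZMod 2) →ₐ[ZMod 2] A :=
  aeval fun i => i1 (Pi.single i 1)

lemma map_homog (k : ℕ) :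
    (homogeneousSubmodule (Fin 8) (ZMod 2) k).map pres.toLinearMap = LinearMap.range i1 ^ k := by
  rw [← homogeneousSubmodule_one_pow, Submodule.map_pow]
  congr 1
  rw [homogeneousSubmodule_one_eq_span_X, Submodule.map_span, ← Set.range_comp,
    LinearMap.range_eq_map, ← (Pi.basisFun (ZMod 2) (Fin 8)).span_eq, Submodule.map_span,
    ← Set.range_comp]
  congr 2
  funext i
  simp [pres]

lemma range_i2_le : LinearMap.range i2 ≤ LinearMap.range i1 * LinearMap.range i1 := by
  rintro _ ⟨w, rfl⟩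
  rw [← Finset.univ_sum_single w, map_sum]
  refine Submodule.sum_mem _ fun k _ => ?_
  obtain ⟨a, b, x, y, z, -, -, -, h⟩ := B_uk (Pi.single 0 1) (by
    intro h; simpa using congrFun h 0) k
  have : (Pi.single k (w k) : V) = w k • (Pi.single k 1 : V) := by
    rw [← Pi.single_smul, smul_eq_mul, mul_one]
  rw [this, map_smul, ← h, map_add, map_add, ← i1_mul_i1, ← i1_mul_i1, ← i1_mul_i1]
  refine Submodule.smul_mem _ _ (Submodule.add_mem _ (Submodule.add_mem _ ?_ ?_) ?_) <;>
    exact Submodule.mul_mem_mul ⟨_, rfl⟩ ⟨_, rfl⟩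

lemma pow_two_eq : LinearMap.range i1 ^ 2 = LinearMap.range i2 := by
  rw [pow_two]
  refine le_antisymm (Submodule.mul_le.2 ?_) range_i2_le
  rintro _ ⟨v, rfl⟩ _ ⟨w, rfl⟩
  exact ⟨_, (i1_mul_i1 v w).symm⟩

lemma pow_add_three (k : ℕ) : LinearMap.range i1 ^ (k + 3) = ⊥ := by
  have : LinearMap.range i1 ^ 3 = ⊥ := by
    rw [pow_succ', pow_two_eq, eq_bot_iff]
    refine Submodule.mul_le.2 ?_
    rintro _ ⟨v, rfl⟩ _ ⟨w, rfl⟩
    exact i1_mul_i2 v w
  rw [pow_add, this, Submodule.mul_bot]

lemma pres_surj : Function.Surjective pres := by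
  intro x
  have h1 : i1 x.2.1 ∈ (homogeneousSubmodule (Fin 8) (ZMod 2) 1).map pres.toLinearMap := by
    rw [map_homog, pow_one]; exact ⟨_, rfl⟩
  have h2 : i2 x.2.2 ∈ (homogeneousSubmodule (Fin 8) (ZMod 2) 2).map pres.toLinearMap := by
    rw [map_homog, pow_two_eq]; exact ⟨_, rfl⟩
  obtain ⟨p, -, hp⟩ := h1
  obtain ⟨q, -, hq⟩ := h2
  refine ⟨x.1 • 1 + p + q, ?_⟩
  rw [map_add, map_add, map_smul, map_one]
  conv_rhs => rw [A.dec x, ← hp, ← hq]
  rfl

lemma pres_hc_cases (k : ℕ) (p : MvPolynomial (Fin 8) (ZMod 2)) :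
    (k ≠ 0 → (pres (homogeneousComponent k p)).1 = 0) ∧
    (k ≠ 1 → (pres (homogeneousComponent k p)).2.1 = 0) ∧
    (k ≠ 2 → (pres (homogeneousComponent k p)).2.2 = 0) := by
  have h : pres (homogeneousComponent k p) ∈ LinearMap.range i1 ^ k := by
    rw [← map_homog]; exact ⟨_, homogeneousComponent_mem k p, rfl⟩
  generalize pres (homogeneousComponent k p) = x at h
  rcases k with _ | _ | _ | k
  · rw [pow_zero, Submodule.one_eq_span, Submodule.mem_span_singleton] at h
    obtain ⟨c, rfl⟩ := h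
    simp [smul_2, smul_3, one_2, one_3]
  · rw [zero_add, pow_one] at h
    obtain ⟨v, rfl⟩ := h
    simp [i1]
  · rw [show 0 + 1 + 1 = 2 from rfl, pow_two_eq] at h
    obtain ⟨v, rfl⟩ := h
    simp [i2]
  · rw [show k + 1 + 1 + 1 = k + 3 from rfl, pow_add_three, Submodule.mem_bot] at h
    subst h
    simp [zero_1, zero_2, zero_3]

lemma hc_mem_ker {p : MvPolynomial (Fin 8) (ZMod 2)} (hp : pres p = 0) (k : ℕ) :
    pres (homogeneousComponent k p) = 0 := by
  by_cases hk : k < p.totalDegree + 1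
  swap
  · rw [homogeneousComponent_eq_zero _ _ (by omega), map_zero]
  have hs : ∑ i ∈ Finset.range (p.totalDegree + 1), pres (homogeneousComponent i p) = 0 := by
    rw [← map_sum, sum_homogeneousComponent, hp]
  let f1 : A →+ ZMod 2 := ⟨⟨fun x => x.1, rfl⟩, fun _ _ => rfl⟩
  let f2 : A →+ V := ⟨⟨fun x => x.2.1, rfl⟩, fun _ _ => rfl⟩
  let f3 : A →+ V := ⟨⟨fun x => x.2.2, rfl⟩, fun _ _ => rfl⟩
  apply A.ext
  · by_cases h : k = 0
    · have := congrArg f1 hs
      rw [map_sum] at this
      exact (Finset.sum_eq_single (f := fun i => f1 (pres (homogeneousComponent i p))) k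
        (fun i _ hi => (pres_hc_cases i p).1 (h ▸ hi))
        (fun h' => absurd (Finset.mem_range.2 hk) h')).symm.trans this
    · exact (pres_hc_cases k p).1 h
  · by_cases h : k = 1
    · have := congrArg f2 hs
      rw [map_sum] at this
      exact (Finset.sum_eq_single (f := fun i => f2 (pres (homogeneousComponent i p))) k
        (fun i _ hi => (pres_hc_cases i p).2.1 (h ▸ hi))
        (fun h' => absurd (Finset.mem_range.2 hk) h')).symm.trans this
    · exact (pres_hc_cases k p).2.1 h
  · by_cases h : k = 2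
    · have := congrArg f3 hs
      rw [map_sum] at this
      exact (Finset.sum_eq_single (f := fun i => f3 (pres (homogeneousComponent i p))) k
        (fun i _ hi => (pres_hc_cases i p).2.2 (h ▸ hi))
        (fun h' => absurd (Finset.mem_range.2 hk) h')).symm.trans this
    · exact (pres_hc_cases k p).2.2 h

lemma ker_le_sq : RingHom.ker pres ≤
    Ideal.span (Set.range (X : Fin 8 → MvPolynomial (Fin 8) (ZMod 2))) ^ 2 := by
  intro p hp
  have hp' : pres p = 0 := hp
  have h0 : homogeneousComponent 0 p = 0 := by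
    have h := hc_mem_ker hp' 0
    rw [homogeneousComponent_zero] at h ⊢
    rw [algHom_C, Algebra.algebraMap_eq_smul_one] at h
    have : coeff 0 p * 1 = 0 := congrArg (fun x : A => x.1) h
    rw [mul_one] at this
    rw [this, C_0]
  have h1 : homogeneousComponent 1 p = 0 := by
    have h := hc_mem_ker hp' 1
    have hm := homogeneousComponent_mem 1 p
    rw [homogeneousSubmodule_one_eq_span_X, Submodule.mem_span_range_iff_exists_fun] at hm
    obtain ⟨c, hc⟩ := hm
    rw [← hc] at h ⊢
    have : pres (∑ i, c i • X i) = i1 c := by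
      conv_rhs => rw [← Finset.univ_sum_single c]
      simp only [map_sum, map_smul, pres, aeval_X]
      refine Finset.sum_congr rfl fun i _ => ?_
      rw [← map_smul, ← Pi.single_smul, smul_eq_mul, mul_one]
    rw [this] at h
    have hc0 : c = 0 := congrArg (fun x : A => x.2.1) h
    simp [hc0]
  refine (mem_pow_idealOfVars_iff' 2 p).2 fun x hx => ?_
  have : coeff x p = coeff x (homogeneousComponent x.degree p) := by
    rw [coeff_homogeneousComponent, if_pos rfl]
  rw [this]
  have hx' : x.degree = 0 ∨ x.degree = 1 := by omega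
  rcases hx' with e | e
  · rw [e, h0, coeff_zero]
  · rw [e, h1, coeff_zero]

/-- The defining ideal. -/
noncomputable abbrev II : Ideal (MvPolynomial (Fin 8) (ZMod 2)) := RingHom.ker pres

/-- The isomorphism `S / I ≃ A`. -/
noncomputable def eqv : (MvPolynomial (Fin 8) (ZMod 2) ⧸ II) ≃ₐ[ZMod 2] A :=
  Ideal.quotientKerAlgEquivOfSurjective pres_surj

lemma mem_piece (k : ℕ) (r : MvPolynomial (Fin 8) (ZMod 2) ⧸ II) :
    r ∈ piece II k ↔ eqv r ∈ LinearMap.range i1 ^ k := by
  rw [← map_homog, piece, if_pos (Int.natCast_nonneg k), Int.toNat_natCast]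
  constructor
  · rintro ⟨p, hp, rfl⟩
    exact ⟨p, hp, rfl⟩
  · rintro ⟨p, hp, h⟩
    exact ⟨p, hp, eqv.injective h⟩

end Pool.Agent.P.MP_7283bc_al
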