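import Mathlib

/-!
Linear resolutions over an algebra `R = K + R1 + R2` with `𝔪^3 = 0` in which the linear
annihilator of every nonzero linear form generates `R2`.
-/

namespace Pool.Agent.P.MP_7283bc_al

open Matrix

/-- Greedy choice of an ordered basis with a property depending on the earlier vectors. -/
theorem greedy_basis {K W : Type} [Field K] [AddCommGroup W] [Module K W] (U : Submodule K W)
    [FiniteDimensional K U] (P : Submodule K W → W → Prop)
    (h : ∀ X, X < U → ∃ v ∈ U, v ∉ X ∧ P X v) :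
    ∃ (s : ℕ) (v : Fin s → W), LinearIndependent K v ∧ Submodule.span K (Set.range v) = U ∧
      ∀ j, P (Submodule.span K (v '' Set.Iio j)) (v j) := by
  have key : ∀ k, k ≤ Module.finrank K U → ∃ v : Fin k → W, LinearIndependent K v ∧
      (∀ j, v j ∈ U) ∧ ∀ j, P (Submodule.span K (v '' Set.Iio j)) (v j) := by
    intro k
    induction k with
    | zero => exact fun _ => ⟨Fin.elim0, linearIndependent_empty_type, fun j => j.elim0,
        fun j => j.elim0⟩
    | succ k ih =>
      intro hk
      obtain ⟨v, hli, hU, hP⟩ := ih (by omega)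
      have hle : Submodule.span K (Set.range v) ≤ U :=
        Submodule.span_le.2 (by rintro _ ⟨j, rfl⟩; exact hU j)
      have hrk : Module.finrank K (Submodule.span K (Set.range v)) = k := by
        rw [finrank_span_eq_card hli, Fintype.card_fin]
      have hlt : Submodule.span K (Set.range v) < U := by
        refine lt_of_le_of_ne hle fun e => ?_
        rw [e] at hrk
        omega
      obtain ⟨w, hwU, hwX, hw⟩ := h _ hlt
      refine ⟨Fin.snoc (α := fun _ => W) v w, linearIndependent_finSnoc.2 ⟨hli, hwX⟩, ?_, ?_⟩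
      · intro j
        refine Fin.lastCases ?_ (fun i => ?_) j
        · simpa using hwU
        · simpa using hU i
      · intro j
        refine Fin.lastCases ?_ (fun i => ?_) j
        · have : (Fin.snoc (α := fun _ => W) v w) '' Set.Iio (Fin.last k) = Set.range v := by
            ext x
            constructor
            · rintro ⟨i, hi, rfl⟩
              obtain ⟨i, rfl⟩ := Fin.exists_castSucc_eq.2 (ne_of_lt hi)
              exact ⟨i, by simp⟩
            · rintro ⟨i, rfl⟩
              exact ⟨i.castSucc, Fin.castSucc_lt_last i, by simp⟩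
          rw [this]
          simpa using hw
        · have : (Fin.snoc (α := fun _ => W) v w) '' Set.Iio i.castSucc = v '' Set.Iio i := by
            ext x
            constructor
            · rintro ⟨l, hl, rfl⟩
              obtain ⟨l, rfl⟩ := Fin.exists_castSucc_eq.2
                (ne_of_lt (lt_trans hl (Fin.castSucc_lt_last i)))
              exact ⟨l, by simpa using hl, by simp⟩
            · rintro ⟨l, hl, rfl⟩
              exact ⟨l.castSucc, by simpa using hl, by simp⟩
          rw [this]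
          simpa using hP i
  obtain ⟨v, hli, hU, hP⟩ := key _ le_rfl
  refine ⟨_, v, hli, ?_, hP⟩
  apply Submodule.eq_of_le_of_finrank_eq
  · exact Submodule.span_le.2 (by rintro _ ⟨j, rfl⟩; exact hU j)
  · rw [finrank_span_eq_card hli, Fintype.card_fin]

variable {K R : Type} [Field K] [CommRing R] [Algebra K R]

/-- `R = K + R1 + R2` with `𝔪^3 = 0`, and `(0 : l)_1 R1 = R2` for all nonzero `l` in `R1`. -/
structure Short (R1 R2 : Submodule K R) : Prop where
  dec : ∀ r : R, ∃ c : K, ∃ l ∈ R1, ∃ q ∈ R2, r = algebraMap K R c + l + q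
  disj : ∀ l ∈ R1, ∀ q ∈ R2, l + q = 0 → l = 0
  mul11 : ∀ a ∈ R1, ∀ b ∈ R1, a * b ∈ R2
  mul12 : ∀ a ∈ R1, ∀ q ∈ R2, a * q = 0
  mul22 : ∀ a ∈ R2, ∀ q ∈ R2, a * q = 0
  fd : FiniteDimensional K R1
  uk : ∀ l ∈ R1, l ≠ 0 → R2 ≤ R1 * (R1 ⊓ LinearMap.ker (LinearMap.mulRight K l))

/-- Vectors with all entries in `P`. -/
def vec (P : Submodule K R) (ι : Type) : Submodule K (ι → R) :=
  Submodule.pi Set.univ fun _ => P

lemma mem_vec {P : Submodule K R} {ι : Type} {x : ι → R} : x ∈ vec P ι ↔ ∀ i, x i ∈ P := by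
  simp [vec, Submodule.mem_pi]

/-- Vectors supported on the indices below `t`. -/
def supp (K R : Type) [Field K] [CommRing R] [Algebra K R] (s t : ℕ) :
    Submodule K (Fin s → R) :=
  Submodule.pi {i | t ≤ i.val} fun _ => ⊥

lemma mem_supp {s t : ℕ} {x : Fin s → R} :
    x ∈ supp K R s t ↔ ∀ i : Fin s, t ≤ i.val → x i = 0 := by
  simp [supp, Submodule.mem_pi]

/-- Linear forms `a` with `a v` in `R1 X`. -/
def colon (R1 : Submodule K R) {ι : Type} (X : Submodule K (ι → R)) (v : ι → R) :
    Submodule K R :=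
  R1 ⊓ (R1 • X).comap ((LinearMap.toSpanSingleton R (ι → R) v).restrictScalars K)

lemma mem_colon {R1 : Submodule K R} {ι : Type} {X : Submodule K (ι → R)} {v : ι → R} {a : R} :
    a ∈ colon R1 X v ↔ a ∈ R1 ∧ a • v ∈ R1 • X := by
  simp [colon]

/-- The class of spaces of linear vectors that is closed under taking linear syzygies. -/
def Good (R1 R2 : Submodule K R) {ι : Type} (U : Submodule K (ι → R)) : Prop :=
  U ≤ vec R1 ι ∧ ∀ X, X < U → ∃ v ∈ U, v ∉ X ∧ R2 ≤ R1 * colon R1 X v

variable {R1 R2 : Submodule K R}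

lemma Short.dec_vec (H : Short R1 R2) {ι : Type} (x : ι → R) :
    ∃ c : ι → K, ∃ l ∈ vec R1 ι, ∃ q ∈ vec R2 ι,
      x = (fun i => algebraMap K R (c i)) + l + q := by
  choose c l hl q hq h using fun i => H.dec (x i)
  exact ⟨c, l, mem_vec.2 hl, q, mem_vec.2 hq, funext h⟩

lemma Short.disj_vec (H : Short R1 R2) {ι : Type} {l q : ι → R} (hl : l ∈ vec R1 ι)
    (hq : q ∈ vec R2 ι) (h : l + q = 0) : l = 0 :=
  funext fun i => H.disj _ (mem_vec.1 hl i) _ (mem_vec.1 hq i) (congrFun h i)

lemma Short.fd_vec (H : Short R1 R2) (ι : Type) [Fintype ι] :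
    FiniteDimensional K (vec R1 ι) := by
  have := H.fd
  let f : (ι → R1) →ₗ[K] vec R1 ι :=
    LinearMap.codRestrict (vec R1 ι) (LinearMap.pi fun i => R1.subtype ∘ₗ LinearMap.proj i)
      (fun x => mem_vec.2 fun i => (x i).2)
  refine Module.Finite.of_surjective f ?_
  intro y
  exact ⟨fun i => ⟨y.1 i, mem_vec.1 y.2 i⟩, rfl⟩

section
variable {ι κ : Type} [Fintype κ] {D : Matrix ι κ R}

lemma mulVec_const_mem {P : Submodule K R} (hD : ∀ p q, D p q ∈ P) (c : κ → K) :
    D *ᵥ (fun i => algebraMap K R (c i)) ∈ vec P ι := by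
  refine mem_vec.2 fun p => ?_
  simp only [mulVec, dotProduct]
  refine Submodule.sum_mem _ fun q _ => ?_
  rw [mul_comm, ← Algebra.smul_def]
  exact P.smul_mem _ (hD p q)

lemma Short.mulVec11 (H : Short R1 R2) (hD : ∀ p q, D p q ∈ R1) {l : κ → R}
    (hl : l ∈ vec R1 κ) : D *ᵥ l ∈ vec R2 ι := by
  refine mem_vec.2 fun p => ?_
  simp only [mulVec, dotProduct]
  exact Submodule.sum_mem _ fun q _ => H.mul11 _ (hD p q) _ (mem_vec.1 hl q)

lemma Short.mulVec12 (H : Short R1 R2) (hD : ∀ p q, D p q ∈ R1) {l : κ → R}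
    (hl : l ∈ vec R2 κ) : D *ᵥ l = 0 := by
  funext p
  simp only [mulVec, dotProduct]
  exact Finset.sum_eq_zero fun q _ => H.mul12 _ (hD p q) _ (mem_vec.1 hl q)

lemma Short.mulVec21 (H : Short R1 R2) (hD : ∀ p q, D p q ∈ R2) {l : κ → R}
    (hl : l ∈ vec R1 κ) : D *ᵥ l = 0 := by
  funext p
  simp only [mulVec, dotProduct]
  exact Finset.sum_eq_zero fun q _ => by
    rw [mul_comm]; exact H.mul12 _ (mem_vec.1 hl q) _ (hD p q)

lemma Short.mulVec22 (H : Short R1 R2) (hD : ∀ p q, D p q ∈ R2) {l : κ → R}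
    (hl : l ∈ vec R2 κ) : D *ᵥ l = 0 := by
  funext p
  simp only [mulVec, dotProduct]
  exact Finset.sum_eq_zero fun q _ => H.mul22 _ (hD p q) _ (mem_vec.1 hl q)

end

lemma Short.smul_le_vec (H : Short R1 R2) {s t : ℕ} {Y : Submodule K (Fin s → R)}
    (hY : Y ≤ vec R1 (Fin s) ⊓ supp K R s t) : R1 • Y ≤ vec R2 (Fin s) ⊓ supp K R s t := by
  refine Submodule.smul_le.2 fun a ha y hy => ⟨mem_vec.2 fun i => ?_, mem_supp.2 fun i hi => ?_⟩
  · exact H.mul11 _ ha _ (mem_vec.1 (hY hy).1 i)
  · simp [mem_supp.1 (hY hy).2 i hi]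

/-- One step of the linear resolution. -/
theorem Short.step (H : Short R1 R2) {ι : Type} [Fintype ι] {U : Submodule K (ι → R)}
    (hU : Good R1 R2 U) :
    ∃ (s : ℕ) (D : Matrix ι (Fin s) R) (U' : Submodule K (Fin s → R)),
      (∀ p q, D p q ∈ R1) ∧ (∀ q, (fun p => D p q) ∈ U) ∧
      (∀ y, y ∈ Submodule.span R (U : Set (ι → R)) ↔ y ∈ Set.range D.mulVec) ∧
      Good R1 R2 U' ∧
      (∀ x, D *ᵥ x = 0 ↔ x ∈ Submodule.span R (U' : Set (Fin s → R))) := by
  classical
  have := H.fd_vec ι
  have : FiniteDimensional K U := Submodule.finiteDimensional_of_le hU.1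
  obtain ⟨s, v, hli, hspan, hP⟩ := greedy_basis U (fun X v => R2 ≤ R1 * colon R1 X v) hU.2
  have hvU : ∀ q, v q ∈ U := fun q => hspan ▸ Submodule.subset_span ⟨q, rfl⟩
  let D : Matrix ι (Fin s) R := Matrix.of fun p q => v q p
  have hD : ∀ p q, D p q ∈ R1 := fun p q => mem_vec.1 (hU.1 (hvU q)) p
  have hDx : ∀ x, D *ᵥ x = ∑ q, x q • v q := by
    intro x
    funext p
    simp [D, mulVec, dotProduct, Finset.sum_apply, mul_comm]
  have hDs : ∀ (j : Fin s) (a : R), D *ᵥ (Pi.single j a) = a • v j := by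
    intro j a
    rw [hDx, Finset.sum_eq_single j]
    · simp
    · intro b _ hb; simp [Pi.single_eq_of_ne hb]
    · simp
  let L : (Fin s → R) →ₗ[K] (ι → R) := D.mulVecLin.restrictScalars K
  let K1 : Submodule K (Fin s → R) := vec R1 (Fin s) ⊓ LinearMap.ker L
  have mem_K1 : ∀ x, x ∈ K1 ↔ x ∈ vec R1 (Fin s) ∧ D *ᵥ x = 0 := fun x => by
    simp [K1, L]
  -- syzygies with prescribed leading coefficient
  have hsyz : ∀ (j : Fin s), ∀ a ∈ colon R1 (Submodule.span K (v '' Set.Iio j)) (v j),
      ∃ σ ∈ K1 ⊓ supp K R s (j.val + 1), σ j = a := by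
    intro j a ha
    rw [mem_colon] at ha
    have hle : R1 • Submodule.span K (v '' Set.Iio j) ≤
        (vec R1 (Fin s) ⊓ supp K R s j.val).map L := by
      refine Submodule.smul_le.2 fun x hx u hu => ?_
      induction hu using Submodule.span_induction with
      | mem u hu =>
        obtain ⟨i, hi, rfl⟩ := hu
        refine ⟨Pi.single i x, ⟨mem_vec.2 fun l => ?_, mem_supp.2 fun l hl => ?_⟩, hDs i x⟩
        · by_cases e : l = i
          · subst e; simpa using hx
          · simp [Pi.single_eq_of_ne e]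
        · have : l ≠ i := by
            rintro rfl
            exact absurd hi (not_lt.2 hl)
          simp [Pi.single_eq_of_ne this]
      | zero => simp
      | add u w _ _ h1 h2 => rw [smul_add]; exact Submodule.add_mem _ h1 h2
      | smul c u _ h1 => rw [smul_comm]; exact Submodule.smul_mem _ _ h1
    obtain ⟨ρ, ⟨hρ1, hρ2⟩, hρ⟩ := hle ha.2
    refine ⟨Pi.single j a - ρ, ⟨(mem_K1 _).2 ⟨Submodule.sub_mem _ (mem_vec.2 fun l => ?_) hρ1, ?_⟩,
      mem_supp.2 fun l hl => ?_⟩, ?_⟩
    · by_cases e : l = j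
      · subst e; simpa using ha.1
      · simp [Pi.single_eq_of_ne e]
    · rw [mulVec_sub, hDs, ← hρ]
      simp [L]
    · have : l ≠ j := by
        rintro rfl
        omega
      simp [Pi.single_eq_of_ne this, mem_supp.1 hρ2 l (by omega)]
    · simp [mem_supp.1 hρ2 j le_rfl]
  have hK1le : ∀ t, K1 ⊓ supp K R s t ≤ vec R1 (Fin s) ⊓ supp K R s t :=
    fun t => inf_le_inf_right _ inf_le_left
  have hA : ∀ t, t ≤ s → vec R2 (Fin s) ⊓ supp K R s t ≤ R1 • (K1 ⊓ supp K R s t) := by
    intro t
    induction t with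
    | zero =>
      intro _ y hy
      have : y = 0 := funext fun i => mem_supp.1 hy.2 i (Nat.zero_le _)
      rw [this]
      exact Submodule.zero_mem _
    | succ t ih =>
      intro ht y hy
      let j : Fin s := ⟨t, ht⟩
      have h1 : ∀ r ∈ R1 * colon R1 (Submodule.span K (v '' Set.Iio j)) (v j),
          ∃ z ∈ R1 • (K1 ⊓ supp K R s (t + 1)), z j = r := by
        intro r hr
        refine Submodule.mul_induction_on hr (fun x hx a ha => ?_) ?_
        · obtain ⟨σ, hσ, e⟩ := hsyz j a ha
          exact ⟨x • σ, Submodule.smul_mem_smul hx hσ, by simp [e]⟩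
        · rintro _ _ ⟨z, hz, rfl⟩ ⟨z', hz', rfl⟩
          exact ⟨z + z', Submodule.add_mem _ hz hz', rfl⟩
      obtain ⟨z, hz, e⟩ := h1 (y j) (hP j (mem_vec.1 hy.1 j))
      have hz' := H.smul_le_vec (hK1le (t + 1)) hz
      have h2 : y - z ∈ vec R2 (Fin s) ⊓ supp K R s t := by
        refine ⟨Submodule.sub_mem _ hy.1 hz'.1, mem_supp.2 fun i hi => ?_⟩
        by_cases hij : i = j
        · subst hij; simp [e]
        · have : t + 1 ≤ i.val := by
            have : i.val ≠ t := fun h => hij (Fin.ext h)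
            omega
          simp [mem_supp.1 hy.2 i this, mem_supp.1 hz'.2 i this]
      have h3 : R1 • (K1 ⊓ supp K R s t) ≤ R1 • (K1 ⊓ supp K R s (t + 1)) := by
        refine Submodule.smul_mono le_rfl (inf_le_inf_left _ fun x hx => ?_)
        exact mem_supp.2 fun i hi => mem_supp.1 hx i (by omega)
      have := Submodule.add_mem _ (h3 (ih (by omega) h2)) hz
      simpa using this
  refine ⟨s, D, K1, hD, hvU, ?_, ⟨inf_le_left, ?_⟩, ?_⟩
  · intro y
    constructor
    · intro hy
      have : Submodule.span R (U : Set (ι → R)) ≤ LinearMap.range D.mulVecLin := by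
        refine Submodule.span_le.2 fun u hu => ?_
        rw [← hspan] at hu
        obtain ⟨c, rfl⟩ := (Submodule.mem_span_range_iff_exists_fun K).1 hu
        refine ⟨fun q => algebraMap K R (c q), ?_⟩
        simp [hDx]
      exact this hy
    · rintro ⟨x, rfl⟩
      rw [hDx]
      exact Submodule.sum_mem _ fun q _ =>
        Submodule.smul_mem _ _ (Submodule.subset_span (hvU q))
  · intro X hX
    have hex : ∃ t, ¬ (K1 ⊓ supp K R s t ≤ X) := by
      refine ⟨s, fun h => not_le_of_gt hX fun x hx => h ⟨hx, mem_supp.2 fun i hi => ?_⟩⟩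
      exact absurd i.isLt (not_lt.2 hi)
    have h0 : Nat.find hex ≠ 0 := by
      intro e
      apply Nat.find_spec hex
      rw [e]
      intro x hx
      have : x = 0 := funext fun i => mem_supp.1 hx.2 i (Nat.zero_le _)
      rw [this]
      exact X.zero_mem
    obtain ⟨t, ht⟩ := Nat.exists_eq_succ_of_ne_zero h0
    have h1 : K1 ⊓ supp K R s t ≤ X := by
      by_contra h
      exact absurd (Nat.find_min' hex h) (by omega)
    have h2 := Nat.find_spec hex
    rw [ht] at h2
    obtain ⟨u, hu, huX⟩ := Set.not_subset.1 h2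
    have hts : t < s := by
      by_contra h
      exact huX (h1 ⟨hu.1, mem_supp.2 fun i hi => absurd i.isLt (by omega)⟩)
    let j : Fin s := ⟨t, hts⟩
    have hlow : ∀ i : Fin s, t ≤ i.val → i ≠ j → u i = 0 := fun i hi hij =>
      mem_supp.1 hu.2 i (by
        have : i.val ≠ t := fun h => hij (Fin.ext h)
        omega)
    have hw : u j ≠ 0 := by
      intro e
      refine huX (h1 ⟨hu.1, mem_supp.2 fun i hi => ?_⟩)
      by_cases hij : i = j
      · rw [hij, e]
      · exact hlow i hi hij
    have hu1 : u ∈ vec R1 (Fin s) := hu.1.1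
    refine ⟨u, hu.1, huX, (H.uk _ (mem_vec.1 hu1 j) hw).trans ?_⟩
    refine Submodule.smul_mono le_rfl fun a ha => mem_colon.2 ⟨ha.1, ?_⟩
    refine Submodule.smul_mono le_rfl h1 (hA t hts.le ⟨mem_vec.2 fun i => ?_,
      mem_supp.2 fun i hi => ?_⟩)
    · exact H.mul11 _ ha.1 _ (mem_vec.1 hu1 i)
    · by_cases hij : i = j
      · have : a * u j = 0 := by simpa using ha.2
        simp [hij, this]
      · simp [hlow i hi hij]
  · intro x
    constructor
    · intro hx
      obtain ⟨c, l, hl, q, hq, rfl⟩ := H.dec_vec x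
      rw [mulVec_add, mulVec_add, H.mulVec12 hD hq, add_zero] at hx
      have h1 := H.disj_vec (mulVec_const_mem hD c) (H.mulVec11 hD hl) hx
      rw [h1, zero_add] at hx
      have hc : c = 0 := by
        rw [hDx] at h1
        funext i
        refine Fintype.linearIndependent_iff.1 hli c ?_ i
        simpa using h1
      have hq' : q ∈ R1 • (K1 ⊓ supp K R s s) :=
        hA s le_rfl ⟨hq, mem_supp.2 fun i hi => absurd i.isLt (not_lt.2 hi)⟩
      have hq'' : q ∈ Submodule.span R (K1 : Set (Fin s → R)) := by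
        refine Submodule.smul_induction_on hq' (fun a _ y hy => ?_)
          (fun _ _ => Submodule.add_mem _)
        exact Submodule.smul_mem _ _ (Submodule.subset_span hy.1)
      have : (fun i => algebraMap K R (c i)) = 0 := by funext i; simp [hc]
      rw [this, zero_add]
      exact Submodule.add_mem _ (Submodule.subset_span ((mem_K1 l).2 ⟨hl, hx⟩)) hq''
    · intro hx
      have : Submodule.span R (K1 : Set (Fin s → R)) ≤ LinearMap.ker D.mulVecLin :=
        Submodule.span_le.2 fun u hu => ((mem_K1 u).1 hu).2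
      exact this hx

/-- The linear resolution of the module generated by a good space of linear vectors. -/
theorem Short.resolution (H : Short R1 R2) {s₀ : ℕ} {U : Submodule K (Fin s₀ → R)}
    (hU : Good R1 R2 U) :
    ∃ (b : ℕ → ℕ) (D₀ : Matrix (Fin s₀) (Fin (b 0)) R)
      (D : ∀ i, Matrix (Fin (b i)) (Fin (b (i + 1))) R),
      (∀ p q, D₀ p q ∈ R1) ∧ (∀ q, (fun p => D₀ p q) ∈ U) ∧
      (∀ y, y ∈ Submodule.span R (U : Set (Fin s₀ → R)) ↔ y ∈ Set.range D₀.mulVec) ∧
      (∀ i p q, D i p q ∈ R1) ∧ Function.Exact (D 0).mulVec D₀.mulVec ∧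
      ∀ i, Function.Exact (D (i + 1)).mulVec (D i).mulVec := by
  let St : Type := Σ s : ℕ, {U : Submodule K (Fin s → R) // Good R1 R2 U}
  choose s D U' h1 h2 h3 h4 h5 using fun x : St => H.step x.2.2
  let next : St → St := fun x => ⟨s x, U' x, h4 x⟩
  let st : ℕ → St := fun i => Nat.rec ⟨s₀, U, hU⟩ (fun _ x => next x) i
  refine ⟨fun i => (st (i + 1)).1, D (st 0), fun i => D (st (i + 1)), h1 (st 0), h2 (st 0),
    h3 (st 0), fun i => h1 (st (i + 1)), fun x => ?_, fun i x => ?_⟩
  · exact (h5 (st 0) x).trans (h3 (st 1) x)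
  · exact (h5 (st (i + 1)) x).trans (h3 (st (i + 2)) x)

/-- A space of vectors spanned by linear forms times unit vectors is good. -/
lemma Short.good_of_single (H : Short R1 R2) {ι : Type} [Fintype ι] [DecidableEq ι]
    {P : Submodule K R} (hP : P ≤ R1) : Good R1 R2 (vec P ι) := by
  refine ⟨fun x hx => mem_vec.2 fun i => hP (mem_vec.1 hx i), fun X hX => ?_⟩
  have : ∃ i : ι, ∃ l ∈ P, Pi.single i l ∉ X := by
    by_contra h
    push Not at h
    refine not_le_of_gt hX fun x hx => ?_
    rw [← Finset.univ_sum_single x]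
    exact Submodule.sum_mem _ fun i _ => h i _ (mem_vec.1 hx i)
  obtain ⟨i, l, hl, hX'⟩ := this
  have hl0 : l ≠ 0 := by
    rintro rfl
    exact hX' (by simp)
  refine ⟨Pi.single i l, mem_vec.2 fun j => ?_, hX', (H.uk l (hP hl) hl0).trans ?_⟩
  · by_cases e : j = i
    · subst e; simpa using hl
    · simp [Pi.single_eq_of_ne e]
  · refine Submodule.smul_mono le_rfl fun a ha => mem_colon.2 ⟨ha.1, ?_⟩
    have h0 : a * l = 0 := by simpa using ha.2
    have : a • (Pi.single i l : ι → R) = 0 := by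
      rw [← Pi.single_smul, smul_eq_mul, h0, Pi.single_zero]
    rw [this]
    exact Submodule.zero_mem _

end Pool.Agent.P.MP_7283bc_al
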