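import Mathlib
import Pool.Agent.P.MP_7283bc_al.Linear

/-!
The non-linear minimal resolution attached to a square-zero linear matrix whose kernel is its
image plus a socle summand.
-/

namespace Pool.Agent.P.MP_7283bc_al

open Matrix

variable {K R : Type} [Field K] [CommRing R] [Algebra K R]

/-- Index type of `G_k + ... + G_(k+i-1)`. -/
def Idx (γ : ℕ → ℕ) : ℕ → ℕ → Type
  | 0, _ => Empty
  | i + 1, k => Fin (γ k) ⊕ Idx γ i (k + 1)

instance Idx.fintype (γ : ℕ → ℕ) : ∀ i k, Fintype (Idx γ i k)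
  | 0, _ => inferInstanceAs (Fintype Empty)
  | i + 1, k =>
    letI := Idx.fintype γ i (k + 1)
    inferInstanceAs (Fintype (Fin (γ k) ⊕ Idx γ i (k + 1)))

/-- Block diagonal differential. -/
def blockD {γ : ℕ → ℕ} (d : ∀ k, Matrix (Fin (γ k)) (Fin (γ (k + 1))) R) :
    ∀ i k, Matrix (Idx γ i k) (Idx γ i (k + 1)) R
  | 0, _ => 0
  | i + 1, k => Matrix.fromBlocks (d k) 0 0 (blockD d i (k + 1))

lemma blockD_mem {γ : ℕ → ℕ} {d : ∀ k, Matrix (Fin (γ k)) (Fin (γ (k + 1))) R}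
    {P : Submodule K R} (h : ∀ k p q, d k p q ∈ P) : ∀ i k p q, blockD d i k p q ∈ P
  | 0, _, p, _ => Empty.elim p
  | _ + 1, k, Sum.inl p, Sum.inl q => h k p q
  | _ + 1, _, Sum.inl _, Sum.inr _ => P.zero_mem
  | _ + 1, _, Sum.inr _, Sum.inl _ => P.zero_mem
  | i + 1, k, Sum.inr p, Sum.inr q => blockD_mem h i (k + 1) p q

lemma exact_blocks {a b c a' b' c' : Type} [Fintype b] [Fintype c] [Fintype b'] [Fintype c']
    {A : Matrix a b R} {B : Matrix b c R} {A' : Matrix a' b' R} {B' : Matrix b' c' R}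
    (h : Function.Exact B.mulVec A.mulVec) (h' : Function.Exact B'.mulVec A'.mulVec) :
    Function.Exact (Matrix.fromBlocks B 0 0 B').mulVec (Matrix.fromBlocks A 0 0 A').mulVec := by
  intro x
  simp only [Set.mem_range, fromBlocks_mulVec, zero_mulVec, add_zero, zero_add]
  constructor
  · intro hx
    obtain ⟨y, hy⟩ := (h (x ∘ Sum.inl)).1 (funext fun i => congrFun hx (Sum.inl i))
    obtain ⟨y', hy'⟩ := (h' (x ∘ Sum.inr)).1 (funext fun i => congrFun hx (Sum.inr i))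
    refine ⟨Sum.elim y y', ?_⟩
    funext i
    rcases i with i | i
    · simpa using congrFun hy i
    · simpa using congrFun hy' i
  · rintro ⟨y, rfl⟩
    have h1 := (h _).2 ⟨y ∘ Sum.inl, rfl⟩
    have h2 := (h' _).2 ⟨y ∘ Sum.inr, rfl⟩
    funext i
    rcases i with i | i
    · simpa using congrFun h1 i
    · simpa using congrFun h2 i

lemma blockD_exact {γ : ℕ → ℕ} {d : ∀ k, Matrix (Fin (γ k)) (Fin (γ (k + 1))) R}
    (h : ∀ k, Function.Exact (d (k + 1)).mulVec (d k).mulVec) :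
    ∀ i k, Function.Exact (blockD d i (k + 1)).mulVec (blockD d i k).mulVec
  | 0, _ => fun _ => ⟨fun _ => ⟨0, funext fun p => Empty.elim p⟩,
      fun _ => funext fun p => Empty.elim p⟩
  | i + 1, k => exact_blocks (h k) (blockD_exact h i (k + 1))

/-- The data of the square-zero matrix. -/
structure Wit (R1 R2 : Submodule K R) (φ S : Matrix (Fin 2) (Fin 2) R) : Prop where
  hφ : ∀ p q, φ p q ∈ R1
  hS : ∀ p q, S p q ∈ R2
  sq : φ * φ = 0
  ker : ∀ l ∈ vec R1 (Fin 2), φ *ᵥ l = 0 →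
    ∃ c : Fin 2 → K, l = φ *ᵥ fun i => algebraMap K R (c i)
  inj : ∀ c : Fin 2 → K, (φ *ᵥ fun i => algebraMap K R (c i)) = 0 → c = 0
  span : ∀ q ∈ vec R2 (Fin 2), ∃ l ∈ vec R1 (Fin 2), ∃ c : Fin 2 → K,
    q = φ *ᵥ l + S *ᵥ fun i => algebraMap K R (c i)
  indep : ∀ l ∈ vec R1 (Fin 2), ∀ c : Fin 2 → K,
    (φ *ᵥ l + S *ᵥ fun i => algebraMap K R (c i)) = 0 → c = 0

variable {R1 R2 : Submodule K R} {φ S : Matrix (Fin 2) (Fin 2) R}

lemma Wit.φS (H : Short R1 R2) (W : Wit R1 R2 φ S) (y : Fin 2 → R) : φ *ᵥ (S *ᵥ y) = 0 := by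
  obtain ⟨c, l, hl, q, hq, rfl⟩ := H.dec_vec y
  rw [mulVec_add S, mulVec_add S, H.mulVec21 W.hS hl, H.mulVec22 W.hS hq, add_zero, add_zero]
  exact H.mulVec12 W.hφ (mulVec_const_mem W.hS c)

lemma Wit.ker_iff (H : Short R1 R2) (W : Wit R1 R2 φ S) (x : Fin 2 → R) :
    φ *ᵥ x = 0 ↔ ∃ y z, x = φ *ᵥ y + S *ᵥ z := by
  constructor
  · intro hx
    obtain ⟨c, l, hl, q, hq, rfl⟩ := H.dec_vec x
    rw [mulVec_add, mulVec_add, H.mulVec12 W.hφ hq, add_zero] at hx
    have h1 := H.disj_vec (mulVec_const_mem W.hφ c) (H.mulVec11 W.hφ hl) hx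
    rw [h1, zero_add] at hx
    have hc := W.inj c h1
    obtain ⟨c', rfl⟩ := W.ker l hl hx
    obtain ⟨l', -, c'', rfl⟩ := W.span q hq
    refine ⟨(fun i => algebraMap K R (c' i)) + l', fun i => algebraMap K R (c'' i), ?_⟩
    have : (fun i => algebraMap K R (c i)) = 0 := by funext i; simp [hc]
    rw [this, zero_add, mulVec_add, add_assoc]
  · rintro ⟨y, z, rfl⟩
    rw [mulVec_add, W.φS H, mulVec_mulVec, W.sq, zero_mulVec, add_zero]

lemma Short.mem_span_vec (H : Short R1 R2) {ι : Type} [Fintype ι] (x : ι → R)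
    (hR : R2 ≤ R1 * R1) :
    x ∈ Submodule.span R (vec R1 ι : Set (ι → R)) ↔
      ∃ l ∈ vec R1 ι, ∃ q ∈ vec R2 ι, x = l + q := by
  classical
  constructor
  · intro hx
    induction hx using Submodule.span_induction with
    | mem x hx => exact ⟨x, hx, 0, Submodule.zero_mem _, by simp⟩
    | zero => exact ⟨0, Submodule.zero_mem _, 0, Submodule.zero_mem _, by simp⟩
    | add x y _ _ h1 h2 =>
      obtain ⟨l, hl, q, hq, rfl⟩ := h1
      obtain ⟨l', hl', q', hq', rfl⟩ := h2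
      exact ⟨l + l', Submodule.add_mem _ hl hl', q + q', Submodule.add_mem _ hq hq', by abel⟩
    | smul r x _ h1 =>
      obtain ⟨l, hl, q, hq, rfl⟩ := h1
      obtain ⟨c, a, ha, b, hb, rfl⟩ := H.dec r
      refine ⟨c • l, Submodule.smul_mem _ _ hl, a • l + c • q,
        Submodule.add_mem _ (mem_vec.2 fun i => H.mul11 _ ha _ (mem_vec.1 hl i))
          (Submodule.smul_mem _ _ hq), ?_⟩
      funext i
      have h1 := H.mul12 _ ha _ (mem_vec.1 hq i)
      have h2 := H.mul12 _ (mem_vec.1 hl i) _ hb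
      have h3 := H.mul22 _ hb _ (mem_vec.1 hq i)
      simp only [Pi.smul_apply, Pi.add_apply, smul_eq_mul]
      simp only [Algebra.smul_def]
      linear_combination h1 + h2 + h3
  · rintro ⟨l, hl, q, hq, rfl⟩
    refine Submodule.add_mem _ (Submodule.subset_span hl) ?_
    rw [← Finset.univ_sum_single q]
    refine Submodule.sum_mem _ fun i _ => ?_
    have := hR (mem_vec.1 hq i)
    refine Submodule.mul_induction_on this (fun a _ b hb => ?_) (fun x y hx hy => ?_)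
    · have : (Pi.single i (a * b) : ι → R) = a • (Pi.single i b : ι → R) := by
        rw [← Pi.single_smul, smul_eq_mul]
      rw [this]
      refine Submodule.smul_mem _ _ (Submodule.subset_span (mem_vec.2 fun j => ?_))
      by_cases e : j = i
      · subst e; simpa using hb
      · simp [Pi.single_eq_of_ne e]
    · rw [Pi.single_add]
      exact Submodule.add_mem _ hx hy

lemma Wit.sum_iff (H : Short R1 R2) (W : Wit R1 R2 φ S) (hR : R2 ≤ R1 * R1) (x z : Fin 2 → R) :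
    φ *ᵥ x + S *ᵥ z = 0 ↔
      φ *ᵥ x = 0 ∧ z ∈ Submodule.span R (vec R1 (Fin 2) : Set (Fin 2 → R)) := by
  rw [H.mem_span_vec z hR]
  constructor
  · intro h
    obtain ⟨c, l, hl, q, hq, rfl⟩ := H.dec_vec x
    obtain ⟨c', l', hl', q', hq', rfl⟩ := H.dec_vec z
    rw [mulVec_add, mulVec_add, H.mulVec12 W.hφ hq, add_zero] at h ⊢
    rw [mulVec_add, mulVec_add, H.mulVec21 W.hS hl', H.mulVec22 W.hS hq', add_zero, add_zero,
      add_assoc] at h
    have h1 := H.disj_vec (mulVec_const_mem W.hφ c)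
      (Submodule.add_mem _ (H.mulVec11 W.hφ hl) (mulVec_const_mem W.hS c')) h
    rw [h1, zero_add] at h ⊢
    have hc := W.indep l hl c' h
    have : (fun i => algebraMap K R (c' i)) = 0 := by funext i; simp [hc]
    rw [this, mulVec_zero, add_zero] at h
    exact ⟨h, l', hl', q', hq', by rw [this, zero_add]⟩
  · rintro ⟨h, l, hl, q, hq, rfl⟩
    rw [h, mulVec_add, H.mulVec21 W.hS hl, H.mulVec22 W.hS hq]
    simp

/-- The column `S e_0` is not in the image of `φ`. -/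
lemma Wit.not_mem (H : Short R1 R2) (W : Wit R1 R2 φ S) (y : Fin 2 → R) :
    φ *ᵥ y ≠ fun p => S p 0 := by
  intro h
  obtain ⟨c, l, hl, q, hq, rfl⟩ := H.dec_vec y
  rw [mulVec_add, mulVec_add, H.mulVec12 W.hφ hq, add_zero] at h
  have e : (S *ᵥ fun i => algebraMap K R ((![-1, 0] : Fin 2 → K) i)) = -fun p => S p 0 := by
    funext p
    simp [mulVec, dotProduct]
  have h0 : φ *ᵥ (fun i => algebraMap K R (c i)) +
      (φ *ᵥ l + S *ᵥ fun i => algebraMap K R ((![-1, 0] : Fin 2 → K) i)) = 0 := by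
    rw [← add_assoc, h, e, add_neg_cancel]
  have h1 := H.disj_vec (mulVec_const_mem W.hφ c)
    (Submodule.add_mem _ (H.mulVec11 W.hφ hl) (mulVec_const_mem W.hS _)) h0
  rw [h1, zero_add] at h0
  have := congrFun (W.indep l hl _ h0) 0
  simp at this

/-- The minimal resolution of the image of `φ`. -/
theorem Wit.complex (H : Short R1 R2) (W : Wit R1 R2 φ S) (hR : R2 ≤ R1 * R1) :
    ∃ (E : ℕ → Type) (_ : ∀ i, Fintype (E i))
      (D : ∀ i, Matrix (Fin 2 ⊕ E i) (Fin 2 ⊕ E (i + 1)) R),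
      (∀ i p q, D i (Sum.inl p) (Sum.inl q) = φ p q) ∧
      (∀ i p q, D i (Sum.inl p) (Sum.inr q) ∈ R2) ∧
      (∀ i p q, D i (Sum.inr p) (Sum.inl q) = 0) ∧
      (∀ i p q, D i (Sum.inr p) (Sum.inr q) ∈ R1) ∧
      (∀ i, Function.Exact (D (i + 1)).mulVec (D i).mulVec) ∧ IsEmpty (E 0) ∧
      ∀ x : Fin 2 ⊕ E 0 → R, φ *ᵥ (x ∘ Sum.inl) = 0 ↔ x ∈ Set.range (D 0).mulVec := by
  obtain ⟨b, D₀, D, h0, -, hr, h1, he0, he⟩ :=
    H.resolution (H.good_of_single (ι := Fin 2) (P := R1) le_rfl)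
  let γ : ℕ → ℕ := fun k => Nat.casesOn k 2 b
  let d : ∀ k, Matrix (Fin (γ k)) (Fin (γ (k + 1))) R := fun k =>
    Nat.casesOn (motive := fun k => Matrix (Fin (γ k)) (Fin (γ (k + 1))) R) k D₀ D
  have hd : ∀ k p q, d k p q ∈ R1 := by
    intro k
    cases k with
    | zero => exact h0
    | succ k => exact h1 k
  have hde : ∀ k, Function.Exact (d (k + 1)).mulVec (d k).mulVec := by
    intro k
    cases k with
    | zero => exact he0
    | succ k => exact he k
  let DD : ∀ i, Matrix (Fin 2 ⊕ Idx γ i 0) (Fin 2 ⊕ (Fin 2 ⊕ Idx γ i 1)) R := fun i =>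
    Matrix.fromBlocks φ (Matrix.fromCols S 0) 0 (Matrix.fromCols 0 (blockD d i 0))
  have hDD : ∀ i (x : Fin 2 ⊕ (Fin 2 ⊕ Idx γ i 1) → R), DD i *ᵥ x =
      Sum.elim (φ *ᵥ (x ∘ Sum.inl) + S *ᵥ (x ∘ Sum.inr ∘ Sum.inl))
        (blockD d i 0 *ᵥ (x ∘ Sum.inr ∘ Sum.inr)) := by
    intro i x
    simp only [DD, fromBlocks_mulVec, fromCols_mulVec, zero_mulVec, add_zero, zero_add]
    rfl
  refine ⟨fun i => Idx γ i 0, fun i => inferInstance, DD, fun _ _ _ => rfl, ?_, fun _ _ _ => rfl,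
    ?_, ?_, inferInstanceAs (IsEmpty Empty), ?_⟩
  · rintro i p (q | q)
    · exact W.hS p q
    · exact R2.zero_mem
  · rintro i p (q | q)
    · exact R1.zero_mem
    · exact blockD_mem hd i 0 p q
  · intro i x
    change DD i *ᵥ x = 0 ↔ ∃ y, DD (i + 1) *ᵥ y = x
    rw [hDD]
    constructor
    · intro hx
      have e1 : φ *ᵥ (x ∘ Sum.inl) + S *ᵥ (x ∘ Sum.inr ∘ Sum.inl) = 0 :=
        funext fun p => congrFun hx (Sum.inl p)
      have e2 : blockD d i 0 *ᵥ (x ∘ Sum.inr ∘ Sum.inr) = 0 :=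
        funext fun p => congrFun hx (Sum.inr p)
      obtain ⟨e3, e4⟩ := (W.sum_iff H hR _ _).1 e1
      obtain ⟨y1, y2, e5⟩ := (W.ker_iff H _).1 e3
      obtain ⟨y3, e6⟩ := (hr _).1 e4
      obtain ⟨y4, e7⟩ := (blockD_exact hde i 0 _).1 e2
      refine ⟨Sum.elim y1 (Sum.elim y2 (Sum.elim y3 y4)), ?_⟩
      rw [hDD]
      funext p
      rcases p with p | p | p
      · exact (congrFun e5 p).symm
      · have := congrFun e6 p
        simp only [Function.comp_apply] at this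
        rw [← this]
        change (Matrix.fromBlocks (d 0) 0 0 (blockD d i 1) *ᵥ Sum.elim y3 y4) (Sum.inl p) = _
        rw [fromBlocks_mulVec]
        simp [d]
      · have := congrFun e7 p
        simp only [Function.comp_apply] at this
        rw [← this]
        change (Matrix.fromBlocks (d 0) 0 0 (blockD d i 1) *ᵥ Sum.elim y3 y4) (Sum.inr p) = _
        rw [fromBlocks_mulVec]
        simp
    · rintro ⟨y, rfl⟩
      rw [hDD]
      set y1 := y ∘ Sum.inl
      set y2 := y ∘ Sum.inr ∘ Sum.inl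
      set w : Fin (γ 1) ⊕ Idx γ i 2 → R := y ∘ Sum.inr ∘ Sum.inr
      have hw : blockD d (i + 1) 0 *ᵥ w =
          Sum.elim (D₀ *ᵥ (w ∘ Sum.inl)) (blockD d i 1 *ᵥ (w ∘ Sum.inr)) := by
        change Matrix.fromBlocks (d 0) 0 0 (blockD d i 1) *ᵥ w = _
        rw [fromBlocks_mulVec]
        simp [d]
      have e1 : φ *ᵥ (φ *ᵥ y1 + S *ᵥ y2) + S *ᵥ (D₀ *ᵥ (w ∘ Sum.inl)) = 0 :=
        (W.sum_iff H hR _ _).2 ⟨(W.ker_iff H _).2 ⟨_, _, rfl⟩, (hr _).2 ⟨_, rfl⟩⟩
      have e2 : blockD d i 0 *ᵥ (blockD d i 1 *ᵥ (w ∘ Sum.inr)) = 0 :=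
        (blockD_exact hde i 0 _).2 ⟨_, rfl⟩
      have hw1 : (blockD d (i + 1) 0 *ᵥ w) ∘ Sum.inl = D₀ *ᵥ (w ∘ Sum.inl) :=
        congrArg (fun f => f ∘ Sum.inl) hw
      have hw2 : (blockD d (i + 1) 0 *ᵥ w) ∘ Sum.inr = blockD d i 1 *ᵥ (w ∘ Sum.inr) :=
        congrArg (fun f => f ∘ Sum.inr) hw
      rw [← hw1] at e1
      rw [← hw2] at e2
      funext p
      rcases p with p | p
      · exact congrFun e1 p
      · exact congrFun e2 p
  · intro x
    change _ ↔ ∃ y, DD 0 *ᵥ y = x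
    rw [W.ker_iff H]
    constructor
    · rintro ⟨y, z, e⟩
      refine ⟨Sum.elim y (Sum.elim z Empty.elim), ?_⟩
      rw [hDD]
      funext p
      rcases p with p | p
      · exact (congrFun e p).symm
      · exact Empty.elim p
    · rintro ⟨y, rfl⟩
      rw [hDD]
      exact ⟨_, _, rfl⟩

end Pool.Agent.P.MP_7283bc_al
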