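import Mathlib
import Pool.Agent.P.MP_7283bc_al.Alg
import Pool.Agent.P.MP_7283bc_al.Witness

/-! The example is universally Koszul and has a module of infinite linearity defect. -/

namespace Pool.Agent.P.MP_7283bc_al

open MvPolynomial Matrix

section General

variable {K : Type} [Field K] {n : ℕ} {I : Ideal (MvPolynomial (Fin n) K)}

lemma piece_one_le {r : MvPolynomial (Fin n) K ⧸ I} (hr : r ∈ piece I 1) : r ∈ irrel I := by
  rw [piece, if_pos (by norm_num), Int.toNat_one, homogeneousSubmodule_one_eq_span_X] at hr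
  obtain ⟨p, hp, rfl⟩ := hr
  obtain ⟨c, rfl⟩ := (Submodule.mem_span_range_iff_exists_fun K).1 hp
  rw [map_sum]
  refine Submodule.sum_mem _ fun i _ => ?_
  rw [map_smul]
  exact Submodule.smul_of_tower_mem _ _ (Ideal.subset_span ⟨i, rfl⟩)

lemma piece_mul {i j : ℤ} {r s : MvPolynomial (Fin n) K ⧸ I} (hr : r ∈ piece I i)
    (hs : s ∈ piece I j) : r * s ∈ piece I (i + j) := by
  by_cases hi : 0 ≤ i
  swap
  · rw [piece, if_neg hi, Submodule.mem_bot] at hr
    rw [hr, zero_mul]; exact Submodule.zero_mem _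
  by_cases hj : 0 ≤ j
  swap
  · rw [piece, if_neg hj, Submodule.mem_bot] at hs
    rw [hs, mul_zero]; exact Submodule.zero_mem _
  rw [piece, if_pos hi] at hr
  rw [piece, if_pos hj] at hs
  rw [piece, if_pos (add_nonneg hi hj), Int.toNat_add hi hj]
  obtain ⟨p, hp, rfl⟩ := hr
  obtain ⟨q, hq, rfl⟩ := hs
  exact ⟨p * q, IsHomogeneous.mul hp hq, by simp⟩

theorem uk_of_short (H : Short (piece I 1) (piece I 2)) : UniversallyKoszul I := by
  intro T hT
  have hP : Submodule.span K T ≤ piece I 1 := Submodule.span_le.2 hT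
  obtain ⟨b, D₀, D, h0, hcol, hr, h1, he0, he⟩ :=
    H.resolution (H.good_of_single (ι := Fin 1) hP)
  have hmem : ∀ q, D₀ 0 q ∈ Ideal.span T := fun q =>
    Submodule.span_subset_span K _ T (mem_vec.1 (hcol q) 0)
  let gen : Fin (b 0) → Ideal.span T := fun q => ⟨D₀ 0 q, hmem q⟩
  have hgen : ∀ x : Fin (b 0) → MvPolynomial (Fin n) K ⧸ I,
      ((∑ p, x p • gen p : Ideal.span T) : MvPolynomial (Fin n) K ⧸ I) = (D₀ *ᵥ x) 0 := by
    intro x
    simp [gen, mulVec, dotProduct, mul_comm]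
  refine ⟨⟨b, fun i _ => i + 1, gen, D, fun p => ?_, fun i p q => ?_,
    fun i p q => piece_one_le (h1 i p q), fun r => ?_, fun x => ?_, he⟩, fun i j hj => ?_⟩
  · simpa [gen] using h0 0 p
  · have : ((i + 1 : ℕ) : ℤ) + 1 - ((i : ℤ) + 1) = 1 := by push_cast; ring
    rw [this]
    exact h1 i p q
  · have hr' : (fun _ : Fin 1 => (r : MvPolynomial (Fin n) K ⧸ I)) ∈
        Submodule.span (MvPolynomial (Fin n) K ⧸ I)
          (vec (Submodule.span K T) (Fin 1) : Set (Fin 1 → MvPolynomial (Fin n) K ⧸ I)) := by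
      obtain ⟨r, hr⟩ := r
      induction hr using Submodule.span_induction with
      | mem x hx => exact Submodule.subset_span (mem_vec.2 fun _ => Submodule.subset_span hx)
      | zero => exact Submodule.zero_mem _
      | add x y _ _ h1 h2 => exact Submodule.add_mem _ h1 h2
      | smul c x _ h1 => exact Submodule.smul_mem _ c h1
    obtain ⟨x, hx⟩ := (hr _).1 hr'
    exact ⟨x, Subtype.ext ((hgen x).trans (congrFun hx 0))⟩
  · rw [← he0 x]
    constructor
    · intro h
      funext i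
      rw [Subsingleton.elim i 0, ← hgen x]
      exact congrArg Subtype.val h
    · intro h
      exact Subtype.ext ((hgen x).trans (congrFun h 0))
  · simp only [MinRes.betti, Finset.card_eq_zero, Finset.filter_eq_empty_iff]
    exact fun _ _ h => hj h.symm

lemma exact_submatrix {R a b c a' b' c' : Type} [CommRing R] [Fintype b] [Fintype c] [Fintype b']
    [Fintype c'] {A : Matrix a b R} {B : Matrix b c R} (ea : a' ≃ a) (eb : b' ≃ b) (ec : c' ≃ c)
    (h : Function.Exact B.mulVec A.mulVec) :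
    Function.Exact (B.submatrix eb ec).mulVec (A.submatrix ea eb).mulVec := by
  intro x
  simp only [Set.mem_range, submatrix_mulVec_equiv]
  constructor
  · intro hx
    have : A *ᵥ (x ∘ eb.symm) = 0 := by
      funext i
      simpa using congrFun hx (ea.symm i)
    obtain ⟨y, hy⟩ := (h _).1 this
    refine ⟨y ∘ ec, ?_⟩
    have e : (y ∘ ec) ∘ ec.symm = y := by funext i; simp
    rw [e, hy]
    funext i; simp
  · rintro ⟨y, rfl⟩
    have e : ((B *ᵥ (y ∘ ec.symm)) ∘ eb) ∘ eb.symm = B *ᵥ (y ∘ ec.symm) := by funext i; simp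
    rw [e, (h _).2 ⟨_, rfl⟩]
    rfl

theorem exists_ld_top {φ S : Matrix (Fin 2) (Fin 2) (MvPolynomial (Fin n) K ⧸ I)}
    (H : Short (piece I 1) (piece I 2)) (W : Wit (piece I 1) (piece I 2) φ S)
    (hR : piece I 2 ≤ piece I 1 * piece I 1) :
    ∃ F : MinRes I (LinearMap.range φ.mulVecLin) (fun j => (vec (piece I j) (Fin 2)).comap
      ((LinearMap.range φ.mulVecLin).subtype.restrictScalars K)), F.ld = ⊤ := by
  classical
  obtain ⟨E, _, D, d11, d12, d21, d22, he, _, he0⟩ := W.complex H hR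
  have h2 : ∀ r ∈ piece I 2, r ∈ irrel I := fun r hr =>
    Submodule.mul_induction_on (hR hr) (fun a _ b hb => Ideal.mul_mem_left _ _ (piece_one_le hb))
      (fun _ _ => Submodule.add_mem _)
  let e : ∀ i, Fin (Fintype.card (Fin 2 ⊕ E i)) ≃ (Fin 2 ⊕ E i) :=
    fun i => (Fintype.equivFin _).symm
  let dg : ∀ i, Fin 2 ⊕ E i → ℤ := fun i => Sum.elim (fun _ => i + 1) (fun _ => i + 2)
  let g : Fin 2 ⊕ E 0 → LinearMap.range φ.mulVecLin :=
    Sum.elim (fun q => ⟨fun p => φ p q, Pi.single q 1, by funext p; simp⟩) (fun _ => 0)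
  have hg : ∀ x : Fin (Fintype.card (Fin 2 ⊕ E 0)) → MvPolynomial (Fin n) K ⧸ I,
      ((∑ p, x p • g (e 0 p) : LinearMap.range φ.mulVecLin) : Fin 2 → _) =
        φ *ᵥ ((x ∘ (e 0).symm) ∘ Sum.inl) := by
    intro x
    have : ∑ p, x p • g (e 0 p) = ∑ q, x ((e 0).symm q) • g q :=
      Fintype.sum_equiv (e 0) _ _ (fun p => by simp)
    rw [this, Fintype.sum_sum_type]
    funext p
    simp [g, mulVec, dotProduct, mul_comm]
  have hmem : ∀ i p q, D i p q ∈ piece I (dg (i + 1) q - dg i p) := by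
    rintro i (p | p) (q | q)
    · have : dg (i + 1) (Sum.inl q) - dg i (Sum.inl p) = 1 := by simp [dg]
      rw [this, d11]; exact W.hφ p q
    · have : dg (i + 1) (Sum.inr q) - dg i (Sum.inl p) = 2 := by simp [dg]
      rw [this]; exact d12 i p q
    · rw [d21]; exact Submodule.zero_mem _
    · have : dg (i + 1) (Sum.inr q) - dg i (Sum.inr p) = 1 := by simp [dg]
      rw [this]; exact d22 i p q
  have hmin : ∀ i p q, D i p q ∈ irrel I := by
    rintro i (p | p) (q | q)
    · rw [d11]; exact piece_one_le (W.hφ p q)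
    · exact h2 _ (d12 i p q)
    · rw [d21]; exact Submodule.zero_mem _
    · exact piece_one_le (d22 i p q)
  let F : MinRes I (LinearMap.range φ.mulVecLin) (fun j => (vec (piece I j) (Fin 2)).comap
      ((LinearMap.range φ.mulVecLin).subtype.restrictScalars K)) :=
    { b := fun i => Fintype.card (Fin 2 ⊕ E i)
      deg := fun i p => dg i (e i p)
      gen := fun p => g (e 0 p)
      D := fun i => (D i).submatrix (e i) (e (i + 1))
      gen_mem := fun p => by
        generalize e 0 p = q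
        rcases q with q | q
        · exact mem_vec.2 fun p => by simpa [dg, g] using W.hφ p q
        · exact Submodule.zero_mem _
      D_mem := fun i p q => hmem i _ _
      D_min := fun i p q => hmin i _ _
      surj := by
        rintro ⟨_, y, rfl⟩
        refine ⟨Sum.elim y 0 ∘ e 0, Subtype.ext ?_⟩
        rw [hg]
        congr 1
        funext p
        simp
      exact_zero := fun x => by
        rw [Subtype.ext_iff, hg, ZeroMemClass.coe_zero, he0]
        simp only [Set.mem_range, submatrix_mulVec_equiv]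
        constructor
        · rintro ⟨y, hy⟩
          refine ⟨y ∘ e 1, ?_⟩
          have e1 : (y ∘ e 1) ∘ (e (0 + 1)).symm = y := by funext i; simp
          rw [e1, hy]
          funext i; simp
        · rintro ⟨y, rfl⟩
          exact ⟨y ∘ (e 1).symm, by funext i; simp⟩
      exact_succ := fun i => exact_submatrix _ _ _ (he i) }
  have hlin : ∀ i, F.lin i = (Matrix.fromBlocks φ 0 0
      (Matrix.of fun p q => D i (Sum.inr p) (Sum.inr q))).submatrix (e i) (e (i + 1)) := by
    intro i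
    funext p q
    change (if dg (i + 1) (e (i + 1) q) - dg i (e i p) = 1 then D i (e i p) (e (i + 1) q) else 0)
      = Matrix.fromBlocks φ 0 0 (Matrix.of fun p q => D i (Sum.inr p) (Sum.inr q)) (e i p)
        (e (i + 1) q)
    generalize e i p = p'
    generalize e (i + 1) q = q'
    rcases p' with p' | p' <;> rcases q' with q' | q'
    · simp [dg, d11]
    · have : dg (i + 1) (Sum.inr q') - dg i (Sum.inl p') = 2 := by simp [dg]
      rw [this]; simp
    · simp [d21]
    · simp [dg]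
  refine ⟨F, ?_⟩
  rw [ENat.eq_top_iff_forall_ge]
  intro m
  refine le_iSup₂_of_le m ?_ (by exact_mod_cast Nat.le_succ m)
  refine ⟨Sum.elim (fun p => S p 0) 0 ∘ e (m + 1), ?_, ?_⟩
  · rw [hlin, submatrix_mulVec_equiv]
    have e1 : (Sum.elim (fun p => S p 0) 0 ∘ e (m + 1)) ∘ (e (m + 1)).symm =
        Sum.elim (fun p => S p 0) (0 : E (m + 1) → _) := by funext i; simp
    rw [e1, fromBlocks_mulVec]
    have e2 : φ *ᵥ (fun p => S p 0) = 0 := H.mulVec12 W.hφ (mem_vec.2 fun p => W.hS p 0)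
    funext p
    generalize hq : e m p = q
    simp only [Function.comp_apply, hq]
    rcases q with q | q
    · simpa using congrFun e2 q
    · simp
  · rintro ⟨y, hy⟩
    rw [hlin, submatrix_mulVec_equiv, fromBlocks_mulVec] at hy
    apply W.not_mem H ((y ∘ (e (m + 1 + 1)).symm) ∘ Sum.inl)
    funext p
    simpa using congrFun hy ((e (m + 1)).symm (Sum.inl p))

end General

/-- The ring of the example. -/
abbrev RR : Type := MvPolynomial (Fin 8) (ZMod 2) ⧸ II

noncomputable def j1 : V →ₗ[ZMod 2] RR := eqv.symm.toLinearMap ∘ₗ i1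
noncomputable def j2 : V →ₗ[ZMod 2] RR := eqv.symm.toLinearMap ∘ₗ i2

lemma eqv_j1 (v : V) : eqv (j1 v) = i1 v := eqv.apply_symm_apply _
lemma eqv_j2 (v : V) : eqv (j2 v) = i2 v := eqv.apply_symm_apply _

lemma mem_R1 {r : RR} : r ∈ piece II 1 ↔ ∃ v, j1 v = r := by
  have := mem_piece 1 r
  rw [Nat.cast_one, pow_one] at this
  rw [this]
  exact exists_congr fun v => by rw [← eqv_j1, eqv.injective.eq_iff]

lemma mem_R2 {r : RR} : r ∈ piece II 2 ↔ ∃ v, j2 v = r := by
  have := mem_piece 2 r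
  rw [Nat.cast_ofNat, pow_two_eq] at this
  rw [this]
  exact exists_congr fun v => by rw [← eqv_j2, eqv.injective.eq_iff]

lemma j1_mul_j1 (v w : V) : j1 v * j1 w = j2 (B v w) :=
  eqv.injective (by rw [map_mul, eqv_j1, eqv_j1, eqv_j2, i1_mul_i1])

lemma j1_mul_j2 (v w : V) : j1 v * j2 w = 0 :=
  eqv.injective (by rw [map_mul, eqv_j1, eqv_j2, i1_mul_i2, map_zero])

lemma j2_mul_j2 (v w : V) : j2 v * j2 w = 0 :=
  eqv.injective (by rw [map_mul, eqv_j2, eqv_j2, i2_mul_i2, map_zero])

lemma j1_eq_zero {v : V} (h : j1 v = 0) : v = 0 := by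
  have := congrArg eqv h
  rw [eqv_j1, map_zero] at this
  exact congrArg (fun x : A => x.2.1) this

lemma j2_eq_zero {v : V} (h : j2 v = 0) : v = 0 := by
  have := congrArg eqv h
  rw [eqv_j2, map_zero] at this
  exact congrArg (fun x : A => x.2.2) this

lemma short_RR : Short (piece II 1) (piece II 2) where
  dec r := by
    refine ⟨(eqv r).1, j1 (eqv r).2.1, mem_R1.2 ⟨_, rfl⟩, j2 (eqv r).2.2, mem_R2.2 ⟨_, rfl⟩,
      eqv.injective ?_⟩
    rw [map_add, map_add, eqv_j1, eqv_j2, AlgEquiv.commutes, Algebra.algebraMap_eq_smul_one]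
    exact A.dec _
  disj l hl q hq h := by
    obtain ⟨v, rfl⟩ := mem_R1.1 hl
    obtain ⟨w, rfl⟩ := mem_R2.1 hq
    have := congrArg eqv h
    rw [map_add, eqv_j1, eqv_j2, map_zero] at this
    have h2 : v + 0 = 0 := congrArg (fun x : A => x.2.1) this
    rw [add_zero] at h2
    rw [h2, map_zero]
  mul11 a ha b hb := piece_mul ha hb
  mul12 a ha q hq := by
    obtain ⟨v, rfl⟩ := mem_R1.1 ha
    obtain ⟨w, rfl⟩ := mem_R2.1 hq
    exact j1_mul_j2 v w
  mul22 a ha q hq := by
    obtain ⟨v, rfl⟩ := mem_R2.1 ha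
    obtain ⟨w, rfl⟩ := mem_R2.1 hq
    exact j2_mul_j2 v w
  fd := by
    have : piece II 1 = LinearMap.range j1 := by ext r; exact mem_R1
    rw [this]
    infer_instance
  uk l hl hl0 := by
    obtain ⟨v, rfl⟩ := mem_R1.1 hl
    have hv : v ≠ 0 := by
      rintro rfl
      exact hl0 (map_zero _)
    intro q hq
    obtain ⟨w, rfl⟩ := mem_R2.1 hq
    rw [← Finset.univ_sum_single w, map_sum]
    refine Submodule.sum_mem _ fun k _ => ?_
    obtain ⟨a, b, x, y, z, h1, h2, h3, h⟩ := B_uk v hv k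
    have : (Pi.single k (w k) : V) = w k • (Pi.single k 1 : V) := by
      rw [← Pi.single_smul, smul_eq_mul, mul_one]
    rw [this, map_smul, ← h, map_add, map_add, ← j1_mul_j1, ← j1_mul_j1, ← j1_mul_j1]
    have key : ∀ u : V, B u v = 0 →
        j1 u ∈ piece II 1 ⊓ LinearMap.ker (LinearMap.mulRight (ZMod 2) (j1 v)) := fun u hu =>
      ⟨mem_R1.2 ⟨_, rfl⟩, by
        change j1 u * j1 v = 0
        rw [j1_mul_j1, hu, map_zero]⟩
    refine Submodule.smul_mem _ _ (Submodule.add_mem _ (Submodule.add_mem _ ?_ ?_) ?_)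
    · exact Submodule.mul_mem_mul (mem_R1.2 ⟨_, rfl⟩) (key _ h1)
    · exact Submodule.mul_mem_mul (mem_R1.2 ⟨_, rfl⟩) (key _ h2)
    · exact Submodule.mul_mem_mul (mem_R1.2 ⟨_, rfl⟩) (key _ h3)

lemma R2_le : piece II 2 ≤ piece II 1 * piece II 1 := by
  have h : j1 (Pi.single 0 1) ≠ 0 := fun h => by simpa using congrFun (j1_eq_zero h) 0
  exact (short_RR.uk _ (mem_R1.2 ⟨_, rfl⟩) h).trans (Submodule.smul_mono le_rfl inf_le_left)

/-- Multiplication by `x_0 + ω x_2` on `R ⊗ F_4 = R^2`. -/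
noncomputable def phi : Matrix (Fin 2) (Fin 2) RR :=
  !![j1 (toV 1), j1 (toV 4); j1 (toV 4), j1 (toV 5)]

/-- The socle generators. -/
noncomputable def soc : Matrix (Fin 2) (Fin 2) RR := !![j2 (toV 2), 0; 0, j2 (toV 2)]

lemma toV_five : toV 5 = toV 1 + toV 4 := by rw [← toV_xor]; rfl

lemma add_self_V (x : V) : x + x = 0 := by
  funext i
  simp only [Pi.add_apply, Pi.zero_apply]
  generalize x i = s
  revert s
  decide

lemma phi_lin (x y : V) (c : Fin 2 → ZMod 2) :
    (phi *ᵥ ![j1 x, j1 y] + soc *ᵥ fun i => algebraMap (ZMod 2) RR (c i)) =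
      ![j2 (B (toV 1) x + B (toV 4) y + c 0 • toV 2),
        j2 (B (toV 4) x + B (toV 5) y + c 1 • toV 2)] := by
  funext p
  fin_cases p <;>
    simp [phi, soc, dotProduct, j1_mul_j1, mul_comm (j2 _), ← Algebra.smul_def, B_symm x,
      B_symm y]

lemma phi_const (c : Fin 2 → ZMod 2) :
    (phi *ᵥ fun i => algebraMap (ZMod 2) RR (c i)) =
      ![j1 (c 0 • toV 1 + c 1 • toV 4), j1 (c 0 • toV 4 + c 1 • toV 5)] := by
  funext p
  fin_cases p <;>
    simp [phi, mulVec, dotProduct, mul_comm (j1 _), ← Algebra.smul_def]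

lemma exists_pair1 {l : Fin 2 → RR} (hl : l ∈ vec (piece II 1) (Fin 2)) :
    ∃ x y, l = ![j1 x, j1 y] := by
  obtain ⟨x, hx⟩ := mem_R1.1 (mem_vec.1 hl 0)
  obtain ⟨y, hy⟩ := mem_R1.1 (mem_vec.1 hl 1)
  exact ⟨x, y, by funext p; fin_cases p <;> simp [hx, hy]⟩

lemma wit_RR : Wit (piece II 1) (piece II 2) phi soc where
  hφ p q := by fin_cases p <;> fin_cases q <;> exact mem_R1.2 ⟨_, rfl⟩
  hS p q := by
    fin_cases p <;> fin_cases q
    · exact mem_R2.2 ⟨_, rfl⟩
    · exact Submodule.zero_mem _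
    · exact Submodule.zero_mem _
    · exact mem_R2.2 ⟨_, rfl⟩
  sq := by
    have h : B (toV 1) (toV 4) + B (toV 4) (toV 5) = 0 := by
      rw [toV_five, map_add, B_self, add_zero, B_symm (toV 4), add_self_V]
    have h' : B (toV 4) (toV 1) + B (toV 5) (toV 4) = 0 := by
      rw [B_symm (toV 4), B_symm (toV 5), h]
    ext p q
    fin_cases p <;> fin_cases q <;>
      simp [phi, Matrix.mul_apply, j1_mul_j1, B_self, ← map_add, h, h']
  ker l hl h := by
    obtain ⟨x, y, rfl⟩ := exists_pair1 hl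
    have e := phi_lin x y 0
    rw [h] at e
    have e0 : (soc *ᵥ fun i => algebraMap (ZMod 2) RR ((0 : Fin 2 → ZMod 2) i)) = 0 := by
      simp [← Pi.zero_def]
    rw [e0, add_zero] at e
    obtain ⟨-, -, s, t, rfl, rfl⟩ := B_pair x y _ _ (j2_eq_zero (congrFun e 0).symm)
      (j2_eq_zero (congrFun e 1).symm)
    exact ⟨![s, t], by rw [phi_const]; rfl⟩
  inj c h := by
    rw [phi_const] at h
    obtain ⟨h0, h1⟩ := indep14 _ _ (j1_eq_zero (congrFun h 0))
    funext p
    fin_cases p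
    · exact h0
    · exact h1
  span q hq := by
    obtain ⟨u, hu⟩ := mem_R2.1 (mem_vec.1 hq 0)
    obtain ⟨v, hv⟩ := mem_R2.1 (mem_vec.1 hq 1)
    obtain ⟨x, y, c, d, e1, e2⟩ := B_span u v
    refine ⟨![j1 x, j1 y], mem_vec.2 fun p => ?_, ![c, d], ?_⟩
    · fin_cases p <;> exact mem_R1.2 ⟨_, rfl⟩
    · rw [phi_lin]
      funext p
      fin_cases p
      · exact hu.symm.trans (congrArg j2 e1.symm)
      · exact hv.symm.trans (congrArg j2 e2.symm)
  indep l hl c h := by
    obtain ⟨x, y, rfl⟩ := exists_pair1 hl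
    rw [phi_lin] at h
    obtain ⟨h0, h1, -⟩ := B_pair x y _ _ (j2_eq_zero (congrFun h 0)) (j2_eq_zero (congrFun h 1))
    funext p
    fin_cases p
    · exact h0
    · exact h1

lemma piece_cases {j : ℤ} {r : RR} (h : r ∈ piece II j) :
    (j ≠ 0 → (eqv r).1 = 0) ∧ (j ≠ 1 → (eqv r).2.1 = 0) ∧ (j ≠ 2 → (eqv r).2.2 = 0) := by
  by_cases hj : 0 ≤ j
  swap
  · rw [piece, if_neg hj, Submodule.mem_bot] at h
    subst h
    rw [map_zero]
    exact ⟨fun _ => rfl, fun _ => rfl, fun _ => rfl⟩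
  rw [piece, if_pos hj] at h
  obtain ⟨p, hp, rfl⟩ := h
  have e : homogeneousComponent j.toNat p = p := by
    rw [homogeneousComponent_of_mem hp, if_pos rfl]
  have := pres_hc_cases j.toNat p
  rw [e] at this
  exact ⟨fun h => this.1 (by omega), fun h => this.2.1 (by omega), fun h => this.2.2 (by omega)⟩

lemma graded_range : IsFGGraded II (LinearMap.range phi.mulVecLin)
    (fun j => (vec (piece II j) (Fin 2)).comap
      ((LinearMap.range phi.mulVecLin).subtype.restrictScalars (ZMod 2))) where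
  tower := inferInstance
  finite := inferInstance
  smul_mem i j r x hr hx := mem_vec.2 fun p => piece_mul hr (mem_vec.1 hx p)
  internal := by
    rw [DirectSum.isInternal_submodule_iff_iSupIndep_and_iSup_eq_top]
    constructor
    · intro j
      rw [Submodule.disjoint_def]
      intro x hx hx'
      have key : ∀ (k : ℤ) (W : Type) [AddCommGroup W] [Module (ZMod 2) W] (f : A →ₗ[ZMod 2] W),
          (∀ i : ℤ, i ≠ k → ∀ r ∈ piece II i, f (eqv r) = 0) → ∀ p, f (eqv (x.1 p)) = 0 := by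
        intro k W _ _ f hf p
        by_cases e : j = k
        · let g : LinearMap.range phi.mulVecLin →ₗ[ZMod 2] W :=
            f ∘ₗ eqv.toLinearMap ∘ₗ LinearMap.proj p ∘ₗ
              ((LinearMap.range phi.mulVecLin).subtype.restrictScalars (ZMod 2))
          have : x ∈ LinearMap.ker g := by
            refine (iSup₂_le fun i hi y hy => ?_ : _ ≤ LinearMap.ker g) hx'
            exact hf i (e ▸ hi) _ (mem_vec.1 hy p)
          exact this
        · exact hf j e _ (mem_vec.1 hx p)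
      let f1 : A →ₗ[ZMod 2] ZMod 2 := ⟨⟨fun x => x.1, fun _ _ => rfl⟩, fun _ _ => rfl⟩
      let f2 : A →ₗ[ZMod 2] V := ⟨⟨fun x => x.2.1, fun _ _ => rfl⟩, fun _ _ => rfl⟩
      let f3 : A →ₗ[ZMod 2] V := ⟨⟨fun x => x.2.2, fun _ _ => rfl⟩, fun _ _ => rfl⟩
      refine Subtype.ext (funext fun p => eqv.injective ?_)
      rw [ZeroMemClass.coe_zero, Pi.zero_apply, map_zero]
      exact A.ext (key 0 _ f1 (fun i hi r hr => (piece_cases hr).1 hi) p)
        (key 1 _ f2 (fun i hi r hr => (piece_cases hr).2.1 hi) p)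
        (key 2 _ f3 (fun i hi r hr => (piece_cases hr).2.2 hi) p)
    · rw [eq_top_iff]
      rintro ⟨_, y, rfl⟩ -
      obtain ⟨c, l, hl, q, hq, rfl⟩ := short_RR.dec_vec y
      have e : (⟨phi.mulVecLin ((fun i => algebraMap (ZMod 2) RR (c i)) + l + q), _, rfl⟩ :
          LinearMap.range phi.mulVecLin) =
          ⟨phi.mulVecLin (fun i => algebraMap (ZMod 2) RR (c i)), _, rfl⟩ +
            ⟨phi.mulVecLin l, _, rfl⟩ := by
        apply Subtype.ext
        simp [mulVec_add, short_RR.mulVec12 wit_RR.hφ hq]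
      rw [e]
      refine Submodule.add_mem _ (Submodule.mem_iSup_of_mem 1 ?_) (Submodule.mem_iSup_of_mem 2 ?_)
      · exact mulVec_const_mem wit_RR.hφ c
      · exact short_RR.mulVec11 wit_RR.hφ hl

end Pool.Agent.P.MP_7283bc_al
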